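import Pool.Agent.Lib.MP_53c676_al.SX.Supp

/-!
Bounded composition factors of the level actions of a minimal branch group.
-/

namespace Pool.Agent.Lib.MP_53c676_al

universe u

open Subgroup
open scoped commutatorElement

/-- `B` is a normal subgroup of `A` of finite index at most `D`. -/
def BStep {G : Type u} [Group G] (D : ℕ) (A B : Subgroup G) : Prop :=
  B ≤ A ∧ (B.subgroupOf A).Normal ∧ B.relIndex A ≠ 0 ∧ B.relIndex A ≤ D

section
variable {G H : Type u} [Group G] [Group H] {D : ℕ}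

theorem BStep.conj {A B : Subgroup G} (h : BStep D A B) :
    ∀ a ∈ A, ∀ b ∈ B, a * b * a⁻¹ ∈ B :=
  fun a ha b hb => h.2.1.conj_mem ⟨b, h.1 hb⟩ hb ⟨a, ha⟩

theorem BStep.mk' {A B : Subgroup G} (h1 : B ≤ A) (h2 : ∀ a ∈ A, ∀ b ∈ B, a * b * a⁻¹ ∈ B)
    (h3 : B.relIndex A ≠ 0) (h4 : B.relIndex A ≤ D) : BStep D A B :=
  ⟨h1, ⟨fun n hn g => h2 g.1 g.2 n.1 hn⟩, h3, h4⟩

theorem BStep.comap {A B : Subgroup G} (h : BStep D A B) (f : H →* G) :
    BStep D (A.comap f) (B.comap f) := by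
  have h1 : (A.comap f).map f ≤ A := map_comap_le f A
  refine BStep.mk' (comap_mono h.1) (fun a ha b hb => ?_) ?_ ?_
  · rw [mem_comap, map_mul, map_mul, map_inv]
    exact h.conj _ ha _ hb
  · rw [relIndex_comap]
    have h2 : (B.comap f).relIndex (A.comap f) = B.relIndex ((A.comap f).map f) :=
      relIndex_comap _ _ _
    exact fun h0 => h.2.2.1 (relIndex_eq_zero_of_le_right h1 h0)
  · rw [relIndex_comap]
    exact (relIndex_le_of_le_right h1 h.2.2.1).trans h.2.2.2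

theorem BStep.map {A B : Subgroup G} (h : BStep D A B) (f : G →* H) :
    BStep D (A.map f) (B.map f) := by
  have h1 : (B.subgroupOf A).map (f.subgroupMap A) ≤ (B.map f).subgroupOf (A.map f) := by
    rintro _ ⟨x, hx, rfl⟩
    exact ⟨x.1, hx, rfl⟩
  have h2 : (B.map f).relIndex (A.map f) ∣ B.relIndex A :=
    (index_dvd_of_le h1).trans (index_map_dvd _ (f.subgroupMap_surjective A))
  refine BStep.mk' (map_mono h.1) ?_ (ne_zero_of_dvd_ne_zero h.2.2.1 h2)
    ((Nat.le_of_dvd (Nat.pos_of_ne_zero h.2.2.1) h2).trans h.2.2.2)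
  rintro _ ⟨a, ha, rfl⟩ _ ⟨b, hb, rfl⟩
  exact ⟨a * b * a⁻¹, h.conj a ha b hb, by simp⟩

theorem BStep.inf {A B : Subgroup G} (h : BStep D A B) (L : Subgroup G) :
    BStep D (A ⊓ L) (B ⊓ L) := by
  have h1 := (h.comap L.subtype).map L.subtype
  rwa [map_comap_eq, map_comap_eq, range_subtype, inf_comm L, inf_comm L] at h1

theorem reach_map {A B : Subgroup G} (h : Relation.ReflTransGen (BStep D) A B) (f : G →* H) :
    Relation.ReflTransGen (BStep D) (A.map f) (B.map f) := by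
  induction h with
  | refl => exact Relation.ReflTransGen.refl
  | tail _ h2 ih => exact ih.tail (h2.map f)

theorem reach_comap {A B : Subgroup G} (h : Relation.ReflTransGen (BStep D) A B) (f : H →* G) :
    Relation.ReflTransGen (BStep D) (A.comap f) (B.comap f) := by
  induction h with
  | refl => exact Relation.ReflTransGen.refl
  | tail _ h2 ih => exact ih.tail (h2.comap f)

theorem reach_inf' {A B : Subgroup G} (h : Relation.ReflTransGen (BStep D) A B)
    (L : Subgroup G) : Relation.ReflTransGen (BStep D) (A ⊓ L) (B ⊓ L) := by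
  induction h with
  | refl => exact Relation.ReflTransGen.refl
  | tail _ h2 ih => exact ih.tail (h2.inf L)

theorem reach_inf {A B : Subgroup G} (hA : Relation.ReflTransGen (BStep D) ⊤ A)
    (hB : Relation.ReflTransGen (BStep D) ⊤ B) : Relation.ReflTransGen (BStep D) ⊤ (A ⊓ B) := by
  have h1 := reach_inf' hA B
  rw [top_inf_eq] at h1
  exact hB.trans h1

theorem reach_sup {A : Subgroup G} (hA : Relation.ReflTransGen (BStep D) ⊤ A) (N : Subgroup G)
    [N.Normal] : Relation.ReflTransGen (BStep D) ⊤ (N ⊔ A) := by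
  have h1 := reach_comap (reach_map hA (QuotientGroup.mk' N)) (QuotientGroup.mk' N)
  rwa [QuotientGroup.comap_map_mk', QuotientGroup.comap_map_mk', sup_top_eq] at h1

theorem exists_least (F : Set (Subgroup G)) {L : Subgroup G} [L.Normal] (hL : L.FiniteIndex)
    (hne : F.Nonempty) (hinf : ∀ A ∈ F, ∀ B ∈ F, A ⊓ B ∈ F) (hle : ∀ A ∈ F, L ≤ A) :
    ∃ O ∈ F, ∀ A ∈ F, O ≤ A := by
  have hfin : F.Finite := by
    refine Set.Finite.of_finite_image (f := fun A => A.map (QuotientGroup.mk' L))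
      (Set.toFinite _) fun A hA B hB h => ?_
    have h1 := congrArg (Subgroup.comap (QuotientGroup.mk' L)) h
    simp only [QuotientGroup.comap_map_mk'] at h1
    rwa [sup_eq_right.mpr (hle A hA), sup_eq_right.mpr (hle B hB)] at h1
  obtain ⟨O, hO⟩ := hfin.exists_minimal hne
  exact ⟨O, hO.1, fun A hA => (hO.2 (hinf O hO.1 A hA) inf_le_left).trans inf_le_right⟩

end

section action
variable {k : ℕ → ℕ} {G : Type u} [Group G] {ρ : G →* Equiv.Perm (Vertex k)}
variable (hρ : IsBranchAction k ρ)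
include hρ

theorem stL_normal (n : ℕ) : (stL ρ n).Normal := by
  refine ⟨fun x hx g v hv => ?_⟩
  have h1 := hx (ρ g⁻¹ v) (by rw [act_len hρ, hv])
  simp only [map_mul, Equiv.Perm.coe_mul, Function.comp_apply]
  rw [h1]
  simp

theorem stL_anti {m n : ℕ} (h : m ≤ n) : stL ρ n ≤ stL ρ m := by
  intro g hg v hv
  by_contra hne
  obtain ⟨v', hv', hp⟩ := exists_desc hρ.1 v (n := n) (by rw [hv]; exact h)
  exact moves_desc hρ hne hp (hg v' hv')

/-- If some level stabilizer is not reached by bounded steps, the family of the reachable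
subgroups containing a level stabilizer has a least element. -/
theorem exists_least_reach (hJ : IsJustInfinite G) {D n : ℕ}
    (h : ¬ Relation.ReflTransGen (BStep D) ⊤ (stL ρ n)) :
    ∃ O : Subgroup G, O.FiniteIndex ∧ Relation.ReflTransGen (BStep D) ⊤ O ∧
      ∀ A, Relation.ReflTransGen (BStep D) ⊤ A → (∃ m, stL ρ m ≤ A) → O ≤ A := by
  have := hJ.1
  let F : Set (Subgroup G) := {A | Relation.ReflTransGen (BStep D) ⊤ A ∧ ∃ m, stL ρ m ≤ A}
  have hconj : ∀ (g : G) (m : ℕ) (A : Subgroup G), Relation.ReflTransGen (BStep D) ⊤ A →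
      stL ρ m ≤ A → Relation.ReflTransGen (BStep D) ⊤ (A.comap (MulAut.conj g).toMonoidHom) ∧
        stL ρ m ≤ A.comap (MulAut.conj g).toMonoidHom := fun g m A hA hm =>
    ⟨reach_comap hA _, fun x hx => hm ((stL_normal hρ m).conj_mem x hx g)⟩
  have hLn : (sInf F).Normal := by
    refine ⟨fun x hx g => mem_sInf.mpr fun A hA => ?_⟩
    obtain ⟨hA, m, hm⟩ := hA
    exact mem_sInf.mp hx _ ⟨(hconj g m A hA hm).1, m, (hconj g m A hA hm).2⟩
  have hLne : sInf F ≠ ⊥ := by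
    intro h0
    apply comm_ne_bot hρ (N := ⊤) fi_top (v0 hρ.1 n).1
    rw [eq_bot_iff, ← h0]
    refine le_sInf fun A hA => ?_
    obtain ⟨hA, m, hm⟩ := hA
    have := stL_normal hρ m
    have := stL_normal hρ n
    obtain ⟨N, hN, hN'⟩ := exists_least
      {B | Relation.ReflTransGen (BStep D) ⊤ B ∧ stL ρ m ≤ B} (stL_fi hρ m)
      ⟨A, hA, hm⟩ (fun B hB B' hB' => ⟨reach_inf hB.1 hB'.1, le_inf hB.2 hB'.2⟩) fun B hB => hB.2
    have hNn : ∀ g : G, ∀ x ∈ N, g * x * g⁻¹ ∈ N := fun g x hx =>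
      hN' _ (hconj g m N hN.1 hN.2) hx
    have hmv : ∃ x ∈ N, ∃ v : Vertex k, v.1.length = n ∧ ρ x v ≠ v := by
      by_contra hcon
      push Not at hcon
      have h1 := reach_sup hN.1 (stL ρ n)
      rw [sup_eq_left.mpr fun x hx => hcon x hx] at h1
      exact h h1
    obtain ⟨x, hx, v, hv, hxv⟩ := hmv
    obtain ⟨g, hg⟩ := hρ.2.2.2.1 v (v0 hρ.1 n).1 (by rw [hv, (v0 hρ.1 n).2])
    have hmove : ρ (g * x * g⁻¹) (v0 hρ.1 n).1 ≠ (v0 hρ.1 n).1 := by
      rw [← hg]
      simpa using hxv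
    refine (double_comm hρ (K := ⊤) (Q := N) (fun κ _ q hq => hNn κ q hq) (fun κ _ => ?_)
      hmove).trans (hN' A ⟨hA, hm⟩)
    have h2 := mul_mem (hNn g x hx) (hNn κ _ (inv_mem (hNn g x hx)))
    simpa [commutatorElement_def, mul_assoc] using h2
  have hLfi : (sInf F).FiniteIndex := by
    have := hJ.2 _ hLne
    exact finiteIndex_of_finite_quotient
  obtain ⟨O, hO, hO'⟩ := exists_least F hLfi ⟨⊤, Relation.ReflTransGen.refl, 0, le_top⟩
    (fun A hA B hB => by
      obtain ⟨hA, a, ha⟩ := hA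
      obtain ⟨hB, b, hb⟩ := hB
      exact ⟨reach_inf hA hB, max a b, le_inf ((stL_anti hρ (le_max_left a b)).trans ha)
        ((stL_anti hρ (le_max_right a b)).trans hb)⟩) fun A hA => sInf_le hA
  exact ⟨O, fi_le hLfi (sInf_le hO), hO.1, fun A hA hm => hO' A ⟨hA, hm⟩⟩

theorem bounded_factors (hJ : IsJustInfinite G) (h : IsMinimalGroup G) :
    ∃ D : ℕ, ∀ n, Relation.ReflTransGen (BStep D) ⊤ (stL ρ n) := by
  classical
  have := hJ.1
  obtain ⟨C, _, p, q, hp, hp', hq', hker⟩ := exists_span hρ hJ h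
  refine ⟨p.range.normalCore.index, fun n => ?_⟩
  by_contra hn
  obtain ⟨O, hOfi, hO, hO'⟩ := exists_least_reach hρ hJ hn
  have hcore : BStep p.range.normalCore.index ⊤ p.range.normalCore :=
    BStep.mk' le_top (fun a _ b hb => (normalCore_normal _).conj_mem b hb a)
      (by rw [relIndex_top_right]; exact (finiteIndex_normalCore _).index_ne_zero)
      (by rw [relIndex_top_right])
  have h1 := reach_inf' (reach_map (reach_comap hO q) p) p.range.normalCore
  rw [comap_top, ← MonoidHom.range_eq_map, inf_eq_right.mpr (normalCore_le _)] at h1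
  have h2 := Relation.ReflTransGen.head hcore h1
  have hact : ∀ o ∈ O, ∀ x : Vertex k, ∃ e : C, q e ∈ O ∧ ρ (p e) x = ρ o x := by
    intro o ho x
    have := stL_normal hρ x.1.length
    have h3 := hO' _ (reach_sup h2 (stL ρ x.1.length)) ⟨_, le_sup_left⟩ ho
    rw [sup_comm, ← SetLike.mem_coe, mul_normal] at h3
    obtain ⟨_, ⟨⟨e, he, rfl⟩, -⟩, s, hs, rfl⟩ := h3
    refine ⟨e, he, ?_⟩
    simp only [map_mul, Equiv.Perm.coe_mul, Function.comp_apply]
    rw [hs x rfl]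
  obtain ⟨m, hm⟩ := orbit_stab hρ hOfi
  obtain ⟨n₁, hn₁⟩ := sup_dich hρ (q := q) hJ hp' m
  obtain ⟨l, hl, hl', hl''⟩ : ∃ l, n₁ ≤ l ∧ m ≤ l ∧ 1 ≤ l :=
    ⟨max n₁ (max m 1), le_max_left _ _, by omega, by omega⟩
  have hx : ∀ y : Lv k m, ∃ x : Lv k l, Sup ρ p q y.1 x.1 := by
    intro y
    by_contra hcon
    push Not at hcon
    have h3 := sup_ve hρ hp hp' hq' y (fun x : Lv k l => Sup ρ p q y.1 x.1) (fun _ hx => hx)
      fun x hx => (hn₁ y.1 x.1 y.2 (by rw [x.2]; exact hl)).resolve_left hx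
    have : IsEmpty {x : Lv k l // Sup ρ p q y.1 x.1} := ⟨fun x => hcon x.1 x.2⟩
    have := h3.vq.finite
    have := rb_infinite hρ m
    exact not_finite (RB hρ m)
  choose X hX using hx
  let s : Setoid (Lv k m) := ⟨fun y y' => ∃ o ∈ O, ρ o y.1 = y'.1,
    ⟨fun y => ⟨1, one_mem _, by simp⟩,
      fun ⟨o, ho, h⟩ => ⟨o⁻¹, inv_mem ho, by rw [← h]; simp⟩,
      fun ⟨o, ho, h⟩ ⟨o', ho', h'⟩ => ⟨o' * o, mul_mem ho' ho, by rw [← h', ← h]; simp⟩⟩⟩
  let t : Lv k l → Lv k m := fun x => ⟨tk m x.1, tk_len m x.1 (by rw [x.2]; exact hl')⟩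
  have hlift : ∀ (y : Lv k m) (x : Lv k l), s (t (X y)) (t x) →
      ∃ e : C, q e ∈ O ∧ Sup ρ p q (ρ (q e) y.1) x.1 := by
    rintro y x ⟨o, ho, hox⟩
    obtain ⟨κ, hκ, hκx⟩ := hm (ρ o (X y).1) x.1 (by rw [act_len hρ, (X y).2, x.2])
      (by rw [act_len hρ, (X y).2]; exact hl') ((aut_tk (hρ.2.1 o) m _).symm.trans hox)
    obtain ⟨e, he, hex⟩ := hact _ (mul_mem hκ ho) (X y).1
    refine ⟨e, he, ?_⟩
    have h3 := sup_act hρ e (hX y)
    rwa [hex, map_mul, Equiv.Perm.mul_apply, hκx] at h3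
  let Φ : Quotient s → Quotient s := fun c => Quotient.mk s (t (X c.out))
  have hinj : Function.Injective Φ := by
    intro c c' hcc
    obtain ⟨e, he, hs⟩ := hlift c.out (X c'.out) (Quotient.exact hcc)
    have h3 := sup_disj hρ hp' hq'
      (y := ⟨ρ (q e) c.out.1, by rw [act_len hρ, c.out.2]⟩) hs (hX c'.out)
    exact Quotient.out_equiv_out.mp ⟨q e, he, congrArg Subtype.val h3⟩
  obtain ⟨x₁, hx₁, hx₁'⟩ := exists_desc hρ.1 (v1 hρ.1).1 (n := l)
    (by rw [(v1 hρ.1).2]; exact hl'')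
  obtain ⟨c, hc⟩ := Finite.surjective_of_injective hinj (Quotient.mk s (t ⟨x₁, hx₁⟩))
  obtain ⟨e, -, hs⟩ := hlift c.out ⟨x₁, hx₁⟩ (Quotient.exact hc)
  exact not_sup hρ hker hx₁' hs

end action

end Pool.Agent.Lib.MP_53c676_al
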