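import Pool.Agent.Lib.MP_53c676_al.SX.Period

/-!
The largeness classes below a non-minimal just infinite branch group.
-/

namespace Pool.Agent.Lib.MP_53c676_al

universe u

open Subgroup

/-- `E` is virtually a quotient of `B` by a finite normal subgroup. -/
def FK (B E : Type u) [Group B] [Group E] : Prop :=
  ∃ (D : Type u) (_ : Group D) (s : D →* B) (t : D →* E),
    Function.Injective s ∧ s.range.FiniteIndex ∧ t.range.FiniteIndex ∧ Finite t.ker

/-- No finite index subgroup has a nontrivial finite normal subgroup. -/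
def NoFin (E : Type u) [Group E] : Prop :=
  ∀ U P : Subgroup E, U.FiniteIndex → (∀ g ∈ U, ∀ x ∈ P, g * x * g⁻¹ ∈ P) → Finite P → P = ⊥

section
variable {A B E E' : Type u} [Group A] [Group B] [Group E] [Group E']

theorem larger_split (h : Larger A B) : ∃ (F : Type u) (_ : Group F), VQ A F ∧ FK B F := by
  obtain ⟨A₀, B₀, N, _, hA, hB, hN, f, hf⟩ := h
  refine ⟨B₀ ⧸ N, inferInstance, (VE.subgroup A₀ hA).symm.vq.trans
    (VQ.of_hom f (fi_range_of_surj f hf)), B₀, inferInstance, B₀.subtype, QuotientGroup.mk' N,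
    B₀.subtype_injective, by rwa [range_subtype],
    fi_range_of_surj _ (QuotientGroup.mk'_surjective N), ?_⟩
  rwa [QuotientGroup.ker_mk']

theorem ker_comp_finite {D D' : Type u} [Group D] [Group D'] (i : D' →* D) (t : D →* E)
    (hi : Function.Injective i) (ht : Finite t.ker) : Finite (t.comp i).ker :=
  Finite.of_injective (fun x : (t.comp i).ker => (⟨i x.1, x.2⟩ : t.ker))
    fun _ _ h => Subtype.ext (hi (congrArg Subtype.val h))

theorem FK.trans_ve (h : FK B E) (h' : VE E E') : FK B E' := by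
  obtain ⟨D, _, s, t, hs, hs', ht', ht⟩ := h
  obtain ⟨C, _, p, q, hp, hq, hp', hq'⟩ := h'
  refine ⟨pb t p, inferInstance, s.comp (pb1 t p), q.comp (pb2 t p), hs.comp (pb1_inj t p hp),
    fi_range_comp _ _ (by rw [pb1_range]; exact fi_comap _ hp') hs',
    fi_range_comp _ _ (by rw [pb2_range]; exact fi_comap _ ht') hq', ?_⟩
  have h1 := ker_comp_finite (pb1 t p) t (pb1_inj t p hp) ht
  refine Finite.of_injective (inclusion (K := (t.comp (pb1 t p)).ker) fun x hx => ?_)
    (inclusion_injective _)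
  have h2 : pb2 t p x = 1 := hq (by rw [map_one]; exact hx)
  show t (pb1 t p x) = 1
  rw [pb_comm, h2, map_one]

theorem FK.of_ve (h : VE B E) : FK B E := by
  refine FK.trans_ve ⟨B, inferInstance, MonoidHom.id B, MonoidHom.id B, fun _ _ h => h,
    fi_range_of_surj _ fun a => ⟨a, rfl⟩, fi_range_of_surj _ fun a => ⟨a, rfl⟩, ?_⟩ h
  rw [(MonoidHom.ker_eq_bot_iff _).mpr fun _ _ h => h]
  infer_instance

theorem FK.vq (h : FK B E) : VQ B E := by
  obtain ⟨D, _, s, t, hs, hs', ht', -⟩ := h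
  exact ⟨D, inferInstance, s, t, hs, hs', ht'⟩

theorem larger_of (h : VQ A E) (h' : FK B E) : Larger A B := by
  obtain ⟨C, _, p, q, hp, hp', hq'⟩ := h
  obtain ⟨D, _, s, t, hs, hs', ht', ht⟩ := h'
  let D' : Subgroup D := q.range.comap t
  let s' : D' →* B := s.comp D'.subtype
  have hs1 : Function.Injective s' := hs.comp D'.subtype_injective
  let τ : s'.range →* E := (t.comp D'.subtype).comp (MonoidHom.ofInjective hs1).symm.toMonoidHom
  let C' : Subgroup C := τ.range.comap q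
  let p' : C' →* A := p.comp C'.subtype
  have hp1 : Function.Injective p' := hp.comp C'.subtype_injective
  have hτ : τ.range.FiniteIndex :=
    fi_range_comp _ _ (fi_range_of_surj _ (MonoidHom.ofInjective hs1).symm.surjective)
      (fi_range_comp _ _ (by rw [range_subtype]; exact fi_comap _ hq') ht')
  let g : C' →* τ.range := (q.comp C'.subtype).codRestrict τ.range fun c => c.2
  have hg : Function.Surjective g := by
    rintro ⟨_, b, rfl⟩
    obtain ⟨c, hc⟩ := ((MonoidHom.ofInjective hs1).symm b).2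
    exact ⟨⟨c, b, hc.symm⟩, Subtype.ext hc⟩
  refine ⟨p'.range, s'.range, τ.ker, inferInstance,
    fi_range_comp _ _ (by rw [range_subtype]; exact fi_comap _ hτ) hp',
    fi_range_comp _ _ (by rw [range_subtype]; exact fi_comap _ hq') hs',
    ker_comp_finite _ _ (MonoidHom.ofInjective hs1).symm.injective
      (ker_comp_finite _ _ D'.subtype_injective ht),
    (QuotientGroup.quotientKerEquivRange τ).symm.toMonoidHom.comp
      (g.comp (MonoidHom.ofInjective hp1).symm.toMonoidHom), ?_⟩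
  exact (QuotientGroup.quotientKerEquivRange τ).symm.surjective.comp
    (hg.comp (MonoidHom.ofInjective hp1).symm.surjective)

theorem vq_of_fk (h : VQ B E') (h' : FK B E) (hE : NoFin E') : VQ E E' := by
  obtain ⟨C, _, p, q, hp, hp', hq'⟩ := h
  obtain ⟨D, _, s, t, hs, hs', ht', ht⟩ := h'
  let t₁ : pb s p →* E := t.comp (pb1 s p)
  let q₁ : pb s p →* E' := q.comp (pb2 s p)
  have h1 : t₁.range.FiniteIndex :=
    fi_range_comp _ _ (by rw [pb1_range]; exact fi_comap _ hp') ht'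
  have h2 : q₁.range.FiniteIndex :=
    fi_range_comp _ _ (by rw [pb2_range]; exact fi_comap _ hs') hq'
  have h3 : Finite t₁.ker := ker_comp_finite _ _ (pb1_inj s p hp) ht
  have h4 : t₁.ker.map q₁ = ⊥ := by
    refine hE q₁.range _ h2 ?_ (Finite.of_surjective _ (q₁.subgroupMap_surjective t₁.ker))
    rintro _ ⟨c, rfl⟩ _ ⟨d, hd, rfl⟩
    exact ⟨c * d * c⁻¹, (inferInstance : t₁.ker.Normal).conj_mem d hd c, by simp⟩
  rw [Subgroup.map_eq_bot_iff] at h4
  refine ⟨pb s p ⧸ t₁.ker, inferInstance, QuotientGroup.kerLift t₁,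
    QuotientGroup.lift t₁.ker q₁ h4, QuotientGroup.kerLift_injective t₁, fi_le h1 ?_,
    fi_le h2 ?_⟩
  · rintro _ ⟨c, rfl⟩
    exact ⟨c, rfl⟩
  · rintro _ ⟨c, rfl⟩
    exact ⟨c, rfl⟩

end

section action
variable {k : ℕ → ℕ} {G : Type u} [Group G] {ρ : G →* Equiv.Perm (Vertex k)}
variable (hρ : IsBranchAction k ρ)
include hρ

theorem noFin_pow [Infinite G] (X : Type) (u : Vertex k) : NoFin (X → rist ρ u) := by
  classical
  intro U P hU hP hfin
  rw [eq_bot_iff]
  intro y hy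
  rw [mem_bot]
  funext x
  by_contra hne
  have hmove : ∃ v : Vertex k, u.1 <+: v.1 ∧ ρ (y x) v ≠ v := by
    by_contra hcon
    push Not at hcon
    exact hne (Subtype.ext (eq_one_of_mem hρ (y x).2 hcon))
  obtain ⟨v, huv, hv⟩ := hmove
  let j : rist ρ v →* (X → rist ρ u) :=
    (MonoidHom.mulSingle (fun _ : X => rist ρ u) x).comp (inclusion (rist_mono huv))
  have hjx : ∀ a : rist ρ v, ((j a x : rist ρ u) : G) = a := by
    intro a
    simp [j]
  have hinf := rist_infinite hρ v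
  have hW : Finite (U.comap j) := by
    refine Finite.of_injective
      (fun a : U.comap j => (⟨j a.1 * y * (j a.1)⁻¹, hP _ a.2 y hy⟩ : P)) fun a b hab => ?_
    have h1 : j a.1 * y * (j a.1)⁻¹ = j b.1 * y * (j b.1)⁻¹ := congrArg Subtype.val hab
    have h2 := congrArg (fun z : X → rist ρ u => (z x : G)) h1
    simp only [Pi.mul_apply, Pi.inv_apply, coe_mul, coe_inv, hjx] at h2
    have h3 : ((b.1 : G))⁻¹ * a.1 ∈ rist ρ v := mul_mem (inv_mem b.1.2) a.1.2
    have h4 := conj_mem_rist hρ (y x : G) h3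
    have h5 : (y x : G) * (((b.1 : G))⁻¹ * a.1) * (y x : G)⁻¹ = ((b.1 : G))⁻¹ * a.1 := by
      have h6 : (a.1 : G) = b.1 * (y x : G) * (b.1 : G)⁻¹ * a.1 * (y x : G)⁻¹ := by
        rw [← h2]; group
      calc (y x : G) * (((b.1 : G))⁻¹ * a.1) * (y x : G)⁻¹
          = (b.1 : G)⁻¹ * (b.1 * (y x : G) * (b.1 : G)⁻¹ * a.1 * (y x : G)⁻¹) := by group
        _ = ((b.1 : G))⁻¹ * a.1 := by rw [← h6]
    rw [h5] at h4
    have h7 := eq_one_of_mem hρ h3 (rist_le_fixSub (act_len hρ _ v) hv h4)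
    rw [inv_mul_eq_one] at h7
    exact Subtype.ext (Subtype.ext h7.symm)
  have : Finite (rist ρ v) := (finite_iff_finite_and_finiteIndex _).mpr ⟨hW, fi_comap j hU⟩
  exact not_finite (rist ρ v)

theorem normal_form (hJ : IsJustInfinite G) {H : Type u} [Group H] (h : Larger G H) :
    ∃ m j : ℕ, j ≤ Nat.card (Lv k m) ∧ FK H (Fin j → RB hρ m) := by
  obtain ⟨F, _, ⟨C, _, p, q, hp, hp', hq'⟩, hF⟩ := larger_split h
  obtain ⟨m, hm⟩ := lemmaQ hρ hJ ((toUnit G).comp p) ((toUnit_inj G).comp hp)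
    (fi_range_comp _ _ hp' (toUnit_fi G))
  refine ⟨m, _, ?_, hF.trans_ve ((hm m le_rfl F q hq').symm.trans
    (VE.of_card_eq (Nat.card_eq_fintype_card.trans (Fintype.card_fin _))))⟩
  refine (Finite.card_subtype_le _).trans ?_
  simp

theorem le_of_vq (hJ : IsJustInfinite G) (hG : ¬ IsMinimalGroup G) {n a b : ℕ}
    (h : VQ (Fin a → RB hρ n) (Fin b → RB hρ n)) : b ≤ a := by
  by_contra hlt
  have key : ∀ c : ℕ, VE (Lv k n → Fin c → RB hρ n) (Fin c → G) := fun c =>
    (VE.curry _ _).symm.trans ((VE.of_card_eq (by simp [mul_comm])).trans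
      ((VE.curry (Fin c) (Lv k n)).trans (VE.pi _ (ve_level hρ n))))
  have h1 : VQ (Lv k n → Fin a → RB hρ n) (Lv k n → Fin b → RB hρ n) := by
    obtain ⟨C, _, p, q, hp, hp', hq'⟩ := h
    exact ⟨Lv k n → C, inferInstance, piMap p, piMap q, piMap_inj p hp, piMap_fi p hp',
      piMap_fi q hq'⟩
  exact hG (minimal_of_rb hρ hJ (rb_vq_of_lt hρ hJ (not_le.mp hlt)
    ((key a).symm.vq.trans (h1.trans (key b).vq))))

theorem larger_iff_le (hJ : IsJustInfinite G) (hG : ¬ IsMinimalGroup G) {H K : Type u}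
    [Group H] [Group K] {m i n j : ℕ} (hH : FK H (Fin i → RB hρ m))
    (hK : FK K (Fin j → RB hρ n)) :
    Larger H K ↔ (j : ℚ) / Nat.card (Lv k n) ≤ (i : ℚ) / Nat.card (Lv k m) := by
  have := hJ.1
  obtain ⟨l, hml, hnl⟩ : ∃ l, m ≤ l ∧ n ≤ l := ⟨max m n, le_max_left _ _, le_max_right _ _⟩
  have hH' := hH.trans_ve ((VE.pi _ (ve_desc hρ hml).symm).trans (VE.mul _ _).symm)
  have hK' := hK.trans_ve ((VE.pi _ (ve_desc hρ hnl).symm).trans (VE.mul _ _).symm)
  have h1 : Larger H K ↔ j * dc hρ n l ≤ i * dc hρ m l := by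
    constructor
    · intro h
      obtain ⟨F, _, hF, hF'⟩ := larger_split h
      have h2 := noFin_pow hρ (Fin (j * dc hρ n l)) (v0 hρ.1 l).1
      exact le_of_vq hρ hJ hG (vq_of_fk (hF.trans (vq_of_fk hK'.vq hF' h2)) hH' h2)
    · intro h
      exact larger_of (hH'.vq.trans (VQ.of_card_le (by simpa using h))) hK'
  have e1 : (Nat.card (Lv k l) : ℚ) = Nat.card (Lv k m) * dc hρ m l := by
    exact_mod_cast card_lv hρ hml
  have e2 : (Nat.card (Lv k l) : ℚ) = Nat.card (Lv k n) * dc hρ n l := by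
    exact_mod_cast card_lv hρ hnl
  have p1 : (0 : ℚ) < Nat.card (Lv k m) := by exact_mod_cast card_lv_pos hρ m
  have p2 : (0 : ℚ) < Nat.card (Lv k n) := by exact_mod_cast card_lv_pos hρ n
  have p3 : (0 : ℚ) < Nat.card (Lv k l) := by exact_mod_cast card_lv_pos hρ l
  have f1 : (i : ℚ) / Nat.card (Lv k m) * Nat.card (Lv k l) = i * dc hρ m l := by
    rw [e1]; field_simp
  have f2 : (j : ℚ) / Nat.card (Lv k n) * Nat.card (Lv k l) = j * dc hρ n l := by
    rw [e2]; field_simp
  rw [h1, ← mul_le_mul_iff_left₀ p3, f1, f2]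
  exact_mod_cast Iff.rfl

theorem chain_below (hJ : IsJustInfinite G) (hG : ¬ IsMinimalGroup G) :
    ∃ f : (H : Type u) → [Group H] → ℚ,
      (∀ (H K : Type u) [Group H] [Group K], Larger G H → Larger G K →
        (Larger H K ↔ f K ≤ f H)) ∧
      (∀ (H : Type u) [Group H], Larger G H → ∃ n j : ℕ,
        j ≤ Nat.card {v : Vertex k // v.1.length = n} ∧
          f H = j / Nat.card {v : Vertex k // v.1.length = n}) ∧
      ∀ (u : Vertex k) (j : ℕ), j ≤ Nat.card {v : Vertex k // v.1.length = u.1.length} →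
        Larger G (Fin j → rist ρ u) ∧
          f (Fin j → rist ρ u) = j / Nat.card {v : Vertex k // v.1.length = u.1.length} := by
  classical
  have h0 : ∀ (H : Type u) [Group H], ∃ r : ℚ, Larger G H → ∃ m j : ℕ,
      j ≤ Nat.card (Lv k m) ∧ FK H (Fin j → RB hρ m) ∧ r = j / Nat.card (Lv k m) := by
    intro H _
    by_cases h : Larger G H
    · obtain ⟨m, j, hj, hF⟩ := normal_form hρ hJ h
      exact ⟨_, fun _ => ⟨m, j, hj, hF, rfl⟩⟩
    · exact ⟨0, fun h' => absurd h' h⟩
  choose f hf using h0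
  refine ⟨f, fun H K _ _ hH hK => ?_, fun H _ hH => ?_, fun u j hj => ?_⟩
  · obtain ⟨m, i, -, hF, hr⟩ := hf H hH
    obtain ⟨n, j, -, hF', hr'⟩ := hf K hK
    rw [hr, hr']
    exact larger_iff_le hρ hJ hG hF hF'
  · obtain ⟨m, i, hi, -, hr⟩ := hf H hH
    exact ⟨m, i, hi, hr⟩
  · have h1 : VE (Fin j → rist ρ u) (Fin j → RB hρ u.1.length) := VE.pi _ (ve_rb hρ u).symm
    have h2 : Larger G (Fin j → rist ρ u) := VQ.larger ((ve_level hρ u.1.length).symm.vq.trans
      ((VQ.of_card_le (by simpa using hj)).trans h1.symm.vq))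
    obtain ⟨m, i, -, hF, hr⟩ := hf _ h2
    have h3 : Larger (Fin j → rist ρ u) (Fin j → rist ρ u) := VE.refl.vq.larger
    refine ⟨h2, hr.trans (le_antisymm ?_ ?_)⟩
    · exact (larger_iff_le hρ hJ hG (FK.of_ve h1) hF).mp h3
    · exact (larger_iff_le hρ hJ hG hF (FK.of_ve h1)).mp h3

end action

end Pool.Agent.Lib.MP_53c676_al
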