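import Pool.Agent.Lib.MP_53c676_al.SX.Supp

/-!
The measure of the interior of the set of fixed points, and its scaling in a minimal group.
-/

namespace Pool.Agent.Lib.MP_53c676_al

universe u

open Subgroup Filter Topology

theorem sx_card_sum {X Y : Type} [Finite X] [Fintype Y] (A : X → Prop) (S : Y → X → Prop)
    (huniq : ∀ y y' x, S y x → S y' x → y = y') (hA : ∀ x, A x ↔ ∃ y, S y x) :
    Nat.card {x // A x} = ∑ y, Nat.card {x // S y x} := by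
  rw [← Nat.card_sigma]
  refine (Nat.card_eq_of_bijective
    (fun z : Σ y : Y, {x // S y x} => (⟨z.2.1, (hA _).mpr ⟨z.1, z.2.2⟩⟩ : {x // A x}))
    ⟨?_, ?_⟩).symm
  · rintro ⟨y, x, hx⟩ ⟨y', x', hx'⟩ h
    have h2 : x = x' := congrArg Subtype.val h
    subst h2
    obtain rfl := huniq y y' x hx hx'
    rfl
  · rintro ⟨x, hx⟩
    obtain ⟨y, hy⟩ := (hA x).mp hx
    exact ⟨⟨y, x, hy⟩, rfl⟩

theorem sx_card_mono {X : Type} [Finite X] {A B : X → Prop} (h : ∀ x, A x → B x) :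
    Nat.card {x // A x} ≤ Nat.card {x // B x} :=
  Nat.card_le_card_of_injective (fun x => ⟨x.1, h _ x.2⟩)
    fun _ _ hxy => Subtype.ext (congrArg (fun t : {x // B x} => t.1) hxy)

variable {k : ℕ → ℕ}

/-- The permutation fixes the subtree at `x` pointwise. -/
def FixAt (σ : Equiv.Perm (Vertex k)) (x : Vertex k) : Prop :=
  ∀ v : Vertex k, x.1 <+: v.1 → σ v = v

/-- The vertices below `u`. -/
def Cone (u x : Vertex k) : Prop := u.1 <+: x.1

/-- The share of the level `n` that satisfies `A`. -/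
noncomputable def sh0 (n : ℕ) (A : Lv k n → Prop) : ℝ :=
  (Nat.card {x // A x} : ℝ) / Nat.card (Lv k n)

/-- The share of the vertices of level `n` in `A` whose subtree is fixed. -/
noncomputable def fr (σ : Equiv.Perm (Vertex k)) (A : Vertex k → Prop) (n : ℕ) : ℝ :=
  sh0 n fun x => A x.1 ∧ FixAt σ x.1

/-- The measure of the interior of the fixed point set inside `A`. -/
noncomputable def fm (σ : Equiv.Perm (Vertex k)) (A : Vertex k → Prop) : ℝ := ⨆ n, fr σ A n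

theorem sh0_mono {n : ℕ} {A B : Lv k n → Prop} (h : ∀ x, A x → B x) : sh0 n A ≤ sh0 n B :=
  div_le_div_of_nonneg_right (by exact_mod_cast sx_card_mono h) (Nat.cast_nonneg _)

theorem sh0_nonneg {n : ℕ} (A : Lv k n → Prop) : 0 ≤ sh0 n A :=
  div_nonneg (Nat.cast_nonneg _) (Nat.cast_nonneg _)

theorem sh0_le_one {n : ℕ} (A : Lv k n → Prop) : sh0 n A ≤ 1 :=
  div_le_one_of_le₀ (by exact_mod_cast Finite.card_subtype_le A) (Nat.cast_nonneg _)

theorem fr_bdd (σ : Equiv.Perm (Vertex k)) (A : Vertex k → Prop) :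
    BddAbove (Set.range (fr σ A)) := ⟨1, by rintro _ ⟨n, rfl⟩; exact sh0_le_one _⟩

theorem fr_le_fm (σ : Equiv.Perm (Vertex k)) (A : Vertex k → Prop) (n : ℕ) :
    fr σ A n ≤ fm σ A := le_ciSup (fr_bdd σ A) n

theorem fm_nonneg (σ : Equiv.Perm (Vertex k)) (A : Vertex k → Prop) : 0 ≤ fm σ A :=
  (sh0_nonneg _).trans (fr_le_fm σ A 0)

theorem fm_le_one (σ : Equiv.Perm (Vertex k)) (A : Vertex k → Prop) : fm σ A ≤ 1 :=
  ciSup_le fun _ => sh0_le_one _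

theorem fm_zero {σ : Equiv.Perm (Vertex k)} {A : Vertex k → Prop}
    (h : ∀ x, A x → ¬ FixAt σ x) : fm σ A = 0 := by
  have h1 : ∀ n, fr σ A n = 0 := by
    intro n
    have : IsEmpty {x : Lv k n // A x.1 ∧ FixAt σ x.1} := ⟨fun x => h _ x.2.1 x.2.2⟩
    simp [fr, sh0]
  simp [fm, h1]

theorem fm_congr {σ σ' : Equiv.Perm (Vertex k)} {u : Vertex k}
    (h : ∀ v : Vertex k, u.1 <+: v.1 → σ v = σ' v) : fm σ (Cone u) = fm σ' (Cone u) := by
  refine iSup_congr fun n => le_antisymm (sh0_mono fun x hx => ⟨hx.1, fun v hv => ?_⟩)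
    (sh0_mono fun x hx => ⟨hx.1, fun v hv => ?_⟩)
  · rw [← h v (List.IsPrefix.trans hx.1 hv)]; exact hx.2 v hv
  · rw [h v (List.IsPrefix.trans hx.1 hv)]; exact hx.2 v hv

section action
variable {G : Type u} [Group G] {ρ : G →* Equiv.Perm (Vertex k)}
variable (hρ : IsBranchAction k ρ)
include hρ

theorem sh0_lift {m n : ℕ} (hmn : m ≤ n) (A : Lv k m → Prop) :
    sh0 n (fun x : Lv k n => ∃ u : {u // A u}, u.1.1.1 <+: x.1.1) = sh0 m A := by
  have h1 := card_lift hρ A (fun x : Lv k n => ∃ u : {u // A u}, u.1.1.1 <+: x.1.1)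
    fun _ => Iff.rfl
  have h2 := card_lv hρ hmn
  have h3 : (dc hρ m n : ℝ) ≠ 0 := by
    have h4 := card_lv_pos hρ n
    rw [h2] at h4
    exact_mod_cast (Nat.pos_of_mul_pos_left h4).ne'
  rw [sh0, sh0, h1, h2]
  push_cast
  rw [mul_div_mul_right _ _ h3]

theorem fr_mono (σ : Equiv.Perm (Vertex k)) {A : Vertex k → Prop}
    (hA : ∀ x x' : Vertex k, x.1 <+: x'.1 → A x → A x') : Monotone (fr σ A) := by
  intro m n hmn
  rw [fr, ← sh0_lift hρ hmn]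
  exact sh0_mono fun x ⟨u, hu⟩ => ⟨hA _ _ hu u.2.1, fun v hv => u.2.2 v (hu.trans hv)⟩

theorem fr_tendsto (σ : Equiv.Perm (Vertex k)) {A : Vertex k → Prop}
    (hA : ∀ x x' : Vertex k, x.1 <+: x'.1 → A x → A x') :
    Tendsto (fr σ A) atTop (𝓝 (fm σ A)) :=
  tendsto_atTop_ciSup (fr_mono hρ σ hA) (fr_bdd σ A)

theorem cone_tendsto (σ : Equiv.Perm (Vertex k)) (u : Vertex k) :
    Tendsto (fr σ (Cone u)) atTop (𝓝 (fm σ (Cone u))) :=
  fr_tendsto hρ σ fun _ _ h h' => List.IsPrefix.trans h' h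

theorem fm_sum (σ : Equiv.Perm (Vertex k)) {A : Vertex k → Prop}
    (hA : ∀ x x' : Vertex k, x.1 <+: x'.1 → A x → A x') (m : ℕ)
    (hup : ∀ x : Vertex k, m ≤ x.1.length → A x → A (tk m x)) [Fintype {u : Lv k m // A u.1}] :
    fm σ A = ∑ u : {u : Lv k m // A u.1}, fm σ (Cone u.1.1) := by
  refine tendsto_nhds_unique (fr_tendsto hρ σ hA)
    ((tendsto_finsetSum _ fun u _ => cone_tendsto hρ σ u.1.1).congr' ?_)
  filter_upwards [eventually_ge_atTop m] with n hn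
  simp only [fr, sh0]
  rw [← Finset.sum_div, ← Nat.cast_sum, ← sx_card_sum (fun x : Lv k n => A x.1 ∧ FixAt σ x.1)]
  · intro u u' x h1 h2
    exact Subtype.ext (Subtype.ext (pre_eq_of_len h1.1 h2.1 (by rw [u.1.2, u'.1.2])))
  · intro x
    have hx : m ≤ x.1.1.length := by rw [x.2]; exact hn
    exact ⟨fun h => ⟨⟨⟨tk m x.1, tk_len m x.1 hx⟩, hup _ hx h.1⟩, tk_pre m x.1, h.2⟩,
      fun ⟨u, hu⟩ => ⟨hA _ _ hu.1 u.2, hu.2⟩⟩

theorem fm_mem (σ : Equiv.Perm (Vertex k)) {A : Vertex k → Prop}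
    (hA : ∀ x x' : Vertex k, x.1 <+: x'.1 → A x → A x') (m : ℕ)
    (hup : ∀ x : Vertex k, m ≤ x.1.length → A x → A (tk m x)) (H : AddSubgroup ℝ) (l : ℝ)
    (h : ∀ u : Vertex k, u.1.length = m → A u → l * fm σ (Cone u) ∈ H) : l * fm σ A ∈ H := by
  have := Fintype.ofFinite {u : Lv k m // A u.1}
  rw [fm_sum hρ σ hA m hup, Finset.mul_sum]
  exact sum_mem fun u _ => h _ u.1.2 u.2

theorem cone_mem (σ : Equiv.Perm (Vertex k)) (w : Vertex k) {m : ℕ} (hm : w.1.length ≤ m)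
    (H : AddSubgroup ℝ) (l : ℝ)
    (h : ∀ u : Vertex k, u.1.length = m → w.1 <+: u.1 → l * fm σ (Cone u) ∈ H) :
    l * fm σ (Cone w) ∈ H :=
  fm_mem hρ σ (fun _ _ h h' => List.IsPrefix.trans h' h) m (fun x hx hw =>
    List.prefix_of_prefix_length_le hw (tk_pre m x) (by rw [tk_len m x hx]; exact hm)) H l h

theorem fm_conj (g h : G) (u : Vertex k) :
    fm (ρ (h * g * h⁻¹)) (Cone (ρ h u)) = fm (ρ g) (Cone u) := by
  have key : ∀ (g h : G) (u : Vertex k) (n : ℕ),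
      fr (ρ g) (Cone u) n ≤ fr (ρ (h * g * h⁻¹)) (Cone (ρ h u)) n := by
    intro g h u n
    refine div_le_div_of_nonneg_right (Nat.cast_le.mpr ?_) (Nat.cast_nonneg _)
    refine Nat.card_le_card_of_injective (fun x => ⟨⟨ρ h x.1.1, by rw [act_len hρ, x.1.2]⟩,
      act_pre hρ h x.2.1, conj_mem_fixSub hρ (u := x.1.1) h x.2.2⟩) fun v w hvw => ?_
    have h1 : ρ h v.1.1 = ρ h w.1.1 := congrArg (fun t => t.1.1) hvw
    exact Subtype.ext (Subtype.ext ((ρ h).injective h1))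
  refine iSup_congr fun n => le_antisymm ?_ (key g h u n)
  have h1 := key (h * g * h⁻¹) h⁻¹ (ρ h u) n
  have h2 : h⁻¹ * (h * g * h⁻¹) * h⁻¹⁻¹ = g := by group
  have h3 : ρ h⁻¹ (ρ h u) = u := by simp
  rwa [h2, h3] at h1

section span
variable {C : Type u} [Group C] {p q : C →* G}

theorem sup_back [Infinite G] (hp' : p.range.FiniteIndex) {y x x' : Vertex k}
    (hx : x.1 <+: x'.1) (h : Sup ρ p q y x')
    (hd : Sup ρ q p x y ∨ (fx ρ q p x).relIndex (rist ρ y) ≠ 0) : Sup ρ q p x y := by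
  refine hd.resolve_right fun h1 => ?_
  let y' : Lv k y.1.length := ⟨y, rfl⟩
  let ev : (Lv k y.1.length → RB hρ y.1.length) →* RB hρ y.1.length :=
    Pi.evalMonoidHom (fun _ => RB hρ y.1.length) y'
  have hU := fi_map p (fi_comap q (fi_map (psi hρ y.1.length)
    (fi_comap ev (comap_phi_fi hρ y' h1)) (psi_fi hρ _))) hp'
  refine not_le_fixSub hρ (relIndex_of_fi hU (rist ρ x')) ?_
  rintro _ ⟨c, ⟨b, ⟨d, hd1, hd2⟩, hb⟩, rfl⟩
  have e1 : p d ∈ fixSub ρ x' := fixSub_mono hx hd1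
  have e2 : p (d⁻¹ * c) ∈ fixSub ρ x' := by
    apply h
    rw [map_mul, map_inv, hd2, ← hb]
    exact psi_decomp hρ b y'
  have e3 := mul_mem e1 e2
  simpa using e3

theorem exists_scale (hJ : IsJustInfinite G) (hp : Function.Injective p)
    (hp' : p.range.FiniteIndex) (hq' : q.range.FiniteIndex)
    (hker : ∀ g ∈ rist ρ (v1 hρ.1).1, ∃ c, q c = 1 ∧ p c = g) :
    ∃ (z : Vertex k) (l : ℚ), 0 < l ∧ l < 1 ∧ ∀ m, ∃ n₂, ∀ y : Vertex k, y.1.length = m →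
      z.1 <+: y.1 → ∀ n, n₂ ≤ n →
        sh0 n (fun x : Lv k n => Sup ρ p q y x.1) = l / Nat.card (Lv k m) := by
  have := hJ.1
  obtain ⟨m₀, hm₀⟩ := orbit_stab hρ hq'
  obtain ⟨n₁, hn₁⟩ := sup_dich hρ (q := q) hJ hp' m₀
  obtain ⟨n₀, hn₀, hn₀'⟩ : ∃ n₀, n₁ ≤ n₀ ∧ 1 ≤ n₀ := ⟨max n₁ 1, le_max_left _ _, le_max_right _ _⟩
  obtain ⟨x₁, hx₁, hx₁'⟩ := exists_desc hρ.1 (v1 hρ.1).1 (n := n₀)
    (by rw [(v1 hρ.1).2]; exact hn₀')
  have := lv_nonempty hρ m₀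
  obtain ⟨z, hz⟩ := exists_small_fibre (X := {x : Lv k n₀ // x ≠ ⟨x₁, hx₁⟩})
    (fun (z : Lv k m₀) x => Sup ρ p q z.1 x.1.1) fun z z' x h1 h2 => sup_disj hρ hp' hq' h1 h2
  have hlt : Nat.card {x : Lv k n₀ // Sup ρ p q z.1 x.1} * Nat.card (Lv k m₀) <
      Nat.card (Lv k n₀) := by
    refine lt_of_le_of_lt (le_trans (Nat.mul_le_mul_right _ ?_) hz)
      (Finite.card_subtype_lt (x := ⟨x₁, hx₁⟩) fun h0 => h0 rfl)
    refine Nat.card_le_card_of_injective (fun x => ⟨⟨x.1, fun h0 => ?_⟩, x.2⟩) ?_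
    · have h1 := x.2
      rw [h0] at h1
      exact not_sup hρ hker hx₁' h1
    · intro x y hxy
      exact Subtype.ext (congrArg (fun t => t.1.1) hxy)
  have hpos : 0 < Nat.card {x : Lv k n₀ // Sup ρ p q z.1 x.1} := by
    rcases isEmpty_or_nonempty {x : Lv k n₀ // Sup ρ p q z.1 x.1} with he | he
    · have h3 := sup_ve hρ hp hp' hq' z (fun x : Lv k n₀ => Sup ρ p q z.1 x.1) (fun _ hx => hx)
        fun x hx => (hn₁ z.1 x.1 z.2 (by rw [x.2]; exact hn₀)).resolve_left hx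
      have := h3.vq.finite
      have := rb_infinite hρ m₀
      exact (not_finite (RB hρ m₀)).elim
    · exact Nat.card_pos
  have q0 : (0 : ℚ) < Nat.card (Lv k n₀) := by exact_mod_cast card_lv_pos hρ n₀
  refine ⟨z.1, (Nat.card {x : Lv k n₀ // Sup ρ p q z.1 x.1} * Nat.card (Lv k m₀) : ℕ) /
    Nat.card (Lv k n₀), div_pos (by exact_mod_cast Nat.mul_pos hpos (card_lv_pos hρ m₀)) q0,
    (div_lt_one q0).mpr (by exact_mod_cast hlt), fun m => ?_⟩
  obtain ⟨n₂, hn₂⟩ := sup_dich hρ (q := q) hJ hp' m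
  refine ⟨max n₂ n₀, fun y₀ hy₀ hy₀' n hn3 => ?_⟩
  have hn : n₂ ≤ n := le_of_max_le_left hn3
  have hn' : n₀ ≤ n := le_of_max_le_right hn3
  have hm : m₀ ≤ m := by rw [← hy₀, ← z.2]; exact hy₀'.length_le
  have e1 : Nat.card {x : Lv k n // Sup ρ p q z.1 x.1} =
      Nat.card {y : Lv k m // z.1.1 <+: y.1.1} * Nat.card {x : Lv k n // Sup ρ p q y₀ x.1} := by
    refine sx_card_cover _ (fun (y : {y : Lv k m // z.1.1 <+: y.1.1}) (x : Lv k n) =>
      Sup ρ p q y.1.1 x.1) (fun y y' x h1 h2 => Subtype.ext (sup_disj hρ hp' hq' h1 h2))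
      (fun x => ⟨sup_cover hρ hp (by rw [z.2]; exact hm)
        fun y hy => hn₂ y x.1 hy (by rw [x.2]; exact hn), fun ⟨y, hy⟩ => sup_mono y.2 hy⟩) _
      fun y => ?_
    have t1 : tk m₀ y₀ = z.1 := by have := pre_iff_tk.mp hy₀'; rwa [z.2] at this
    have t2 : tk m₀ y.1.1 = z.1 := by have := pre_iff_tk.mp y.2; rwa [z.2] at this
    obtain ⟨_, ⟨c, rfl⟩, hc⟩ := hm₀ y₀ y.1.1 (by rw [hy₀, y.1.2]) (by rw [hy₀]; exact hm)
      (t1.trans t2.symm)
    rw [← hc]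
    exact (card_sup_act hρ c n).symm
  have e2 : Nat.card {x : Lv k n // Sup ρ p q z.1 x.1} =
      Nat.card {x : Lv k n₀ // Sup ρ p q z.1 x.1} * dc hρ n₀ n := by
    refine card_lift hρ _ _ fun x => ⟨fun hx => ?_, fun ⟨w, hw⟩ => sup_down hw w.2⟩
    have hl : (tk n₀ x.1).1.length = n₀ := tk_len n₀ x.1 (by rw [x.2]; exact hn')
    exact ⟨⟨⟨tk n₀ x.1, hl⟩, sup_up hρ (tk_pre n₀ x.1)
      (hn₁ z.1 _ z.2 (by rw [hl]; exact hn₀)) hx⟩, tk_pre n₀ x.1⟩
  rw [card_desc hρ z m] at e1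
  have f1 := card_lv hρ hm
  have f2 := card_lv hρ hn'
  have p0 : (0 : ℝ) < Nat.card (Lv k n₀) := by exact_mod_cast card_lv_pos hρ n₀
  have p1 : (0 : ℝ) < Nat.card (Lv k m) := by exact_mod_cast card_lv_pos hρ m
  have p2 : (0 : ℝ) < Nat.card (Lv k n) := by exact_mod_cast card_lv_pos hρ n
  rw [sh0]
  generalize Nat.card {x : Lv k n // Sup ρ p q y₀ x.1} = s at e1 ⊢
  generalize Nat.card {x : Lv k n₀ // Sup ρ p q z.1 x.1} = σ at e2 ⊢
  have key : s * Nat.card (Lv k m) * Nat.card (Lv k n₀) =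
      σ * Nat.card (Lv k m₀) * Nat.card (Lv k n) := by
    calc s * Nat.card (Lv k m) * Nat.card (Lv k n₀)
        = (dc hρ m₀ m * s) * Nat.card (Lv k m₀) * Nat.card (Lv k n₀) := by rw [f1]; ring
      _ = (σ * dc hρ n₀ n) * Nat.card (Lv k m₀) * Nat.card (Lv k n₀) := by rw [← e2, e1]
      _ = σ * Nat.card (Lv k m₀) * Nat.card (Lv k n) := by rw [f2]; ring
  have key' : (s : ℝ) * Nat.card (Lv k m) * Nat.card (Lv k n₀) =
      σ * Nat.card (Lv k m₀) * Nat.card (Lv k n) := by exact_mod_cast key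
  push_cast
  field_simp
  linarith

theorem fm_scale (hJ : IsJustInfinite G) (hp : Function.Injective p)
    (hp' : p.range.FiniteIndex) (hq' : q.range.FiniteIndex) {z : Vertex k} {l : ℝ} (hl : 0 ≤ l)
    (hs : ∀ m, ∃ n₂, ∀ y : Vertex k, y.1.length = m → z.1 <+: y.1 → ∀ n, n₂ ≤ n →
      sh0 n (fun x : Lv k n => Sup ρ p q y x.1) = l / Nat.card (Lv k m))
    {y : Vertex k} (hy : z.1 <+: y.1) (c : C) :
    l * fm (ρ (q c)) (Cone y) = fm (ρ (p c)) (Sup ρ p q y) := by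
  have := hJ.1
  have hU : ∀ m, ∃ n₂, ∀ n, n₂ ≤ n → sh0 n (fun x : Lv k n =>
      ∃ y' : {y' : Lv k m // Cone y y'.1 ∧ FixAt (ρ (q c)) y'.1}, Sup ρ p q y'.1.1 x.1) =
        l * fr (ρ (q c)) (Cone y) m := by
    intro m
    obtain ⟨n₂, hn₂⟩ := hs m
    refine ⟨n₂, fun n hn => ?_⟩
    have := Fintype.ofFinite {y' : Lv k m // Cone y y'.1 ∧ FixAt (ρ (q c)) y'.1}
    rw [sh0, sx_card_sum _ (fun (y' : {y' : Lv k m // Cone y y'.1 ∧ FixAt (ρ (q c)) y'.1})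
      (x : Lv k n) => Sup ρ p q y'.1.1 x.1)
      (fun y1 y2 x h1 h2 => Subtype.ext (sup_disj hρ hp' hq' h1 h2)) fun _ => Iff.rfl,
      Nat.cast_sum, Finset.sum_div,
      Finset.sum_congr rfl fun y' _ => hn₂ y'.1.1 y'.1.2 (hy.trans y'.2.1) n hn,
      Finset.sum_const, Finset.card_univ, nsmul_eq_mul, ← Nat.card_eq_fintype_card, fr, sh0]
    ring
  refine le_antisymm ?_ (ciSup_le fun n => ?_)
  · rw [fm, Real.mul_iSup_of_nonneg hl]
    refine ciSup_le fun m => ?_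
    obtain ⟨n, hn⟩ := hU m
    rw [← hn n le_rfl]
    exact (sh0_mono fun x ⟨y', hy'⟩ => ⟨sup_mono y'.2.1 hy', hy' c y'.2.2⟩).trans
      (fr_le_fm (ρ (p c)) (Sup ρ p q y) n)
  · obtain ⟨m₁, hm₁⟩ := sup_dich hρ (p := q) (q := p) hJ hq' n
    obtain ⟨m, hm, hm'⟩ : ∃ m, m₁ ≤ m ∧ y.1.length ≤ m :=
      ⟨max m₁ y.1.length, le_max_left _ _, le_max_right _ _⟩
    obtain ⟨n₂, hn₂⟩ := hU m
    obtain ⟨n₃, hn₃⟩ := sup_dich hρ (q := q) hJ hp' m
    obtain ⟨n', h1, h2, h3⟩ : ∃ n', n ≤ n' ∧ n₂ ≤ n' ∧ n₃ ≤ n' :=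
      ⟨max n (max n₂ n₃), le_max_left _ _, by omega, by omega⟩
    refine le_trans ?_ (mul_le_mul_of_nonneg_left (fr_le_fm _ _ m) hl)
    rw [← hn₂ n' h2, fr, ← sh0_lift hρ h1]
    refine sh0_mono fun x' ⟨x, hx⟩ => ?_
    obtain ⟨y', hy'⟩ := sup_cover hρ hp hm'
      (fun t ht => hn₃ t x'.1 ht (by rw [x'.2]; exact h3)) (sup_down hx x.2.1)
    exact ⟨⟨y'.1, y'.2, sup_back hρ hp' hx hy'
      (hm₁ x.1.1 y'.1.1 x.1.2 (by rw [y'.1.2]; exact hm)) c x.2.2⟩, hy'⟩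

end span

/-- In a minimal group the additive group generated by the measures of the interiors of the
fixed point sets is stable under a rational number strictly between `0` and `1`. -/
theorem fix_scale (hJ : IsJustInfinite G) (h : IsMinimalGroup G) :
    ∃ l : ℚ, 0 < l ∧ l < 1 ∧ ∀ H : AddSubgroup ℝ, (∀ g u, fm (ρ g) (Cone u) ∈ H) →
      ∀ g u, l * fm (ρ g) (Cone u) ∈ H := by
  have := hJ.1
  obtain ⟨C, _, p, q, hp, hp', hq', hker⟩ := exists_span hρ hJ h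
  obtain ⟨z, l, hl0, hl1, hs⟩ := exists_scale hρ hJ hp hp' hq' hker
  refine ⟨l, hl0, hl1, fun H hH => ?_⟩
  have hA : ∀ (c : C) (y : Vertex k), z.1 <+: y.1 → l * fm (ρ (q c)) (Cone y) ∈ H := by
    intro c y hy
    obtain ⟨n₀, hn₀⟩ := sup_dich hρ (q := q) hJ hp' y.1.length
    rw [fm_scale hρ hJ hp hp' hq' (by exact_mod_cast hl0.le) hs hy c,
      ← one_mul (fm _ _)]
    refine fm_mem hρ _ (fun _ _ h1 h2 => sup_down h1 h2) n₀ (fun x hx h1 =>
      sup_up hρ (tk_pre n₀ x) (hn₀ y _ rfl (tk_len n₀ x hx).ge) h1) H 1 fun u _ _ => ?_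
    rw [one_mul]
    exact hH _ _
  obtain ⟨m₁, hm₁⟩ := orbit_stab hρ (finiteIndex_normalCore q.range)
  have hB : ∀ (g : G) (x : Vertex k), z.1 <+: x.1 → m₁ ≤ x.1.length →
      l * fm (ρ g) (Cone x) ∈ H := by
    intro g x hx hx'
    by_cases hw : ∃ w, Cone x w ∧ FixAt (ρ g) w
    swap
    · rw [fm_zero fun w h1 h2 => hw ⟨w, h1, h2⟩, mul_zero]
      exact zero_mem _
    obtain ⟨w, hw, hw'⟩ := hw
    refine cone_mem hρ _ x hw.length_le H _ fun u hu hxu => ?_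
    by_cases hg : ρ g u = u
    swap
    · rw [fm_zero (A := Cone u) fun v h1 h2 => moves_desc hρ hg h1 (h2 v (List.prefix_refl _)),
        mul_zero]
      exact zero_mem _
    have ht : tk m₁ u = tk m₁ w := by
      apply Subtype.ext
      obtain ⟨a, ha⟩ := hxu
      obtain ⟨b, hb⟩ := hw
      have e1 : u.1.take m₁ = x.1.take m₁ := by rw [← ha, List.take_append_of_le_length hx']
      have e2 : w.1.take m₁ = x.1.take m₁ := by rw [← hb, List.take_append_of_le_length hx']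
      exact e1.trans e2.symm
    obtain ⟨κ, hκ, hκu⟩ := hm₁ u w hu (hx'.trans hxu.length_le) ht
    have h1 : κ⁻¹ * (g⁻¹ * κ * g⁻¹⁻¹) ∈ q.range := normalCore_le _
      (mul_mem (inv_mem hκ) ((normalCore_normal _).conj_mem κ hκ g⁻¹))
    obtain ⟨c, hc⟩ := h1
    rw [fm_congr (σ' := ρ (q c)) fun v hv => ?_]
    · exact hA c u (hx.trans hxu)
    · have h2 := act_pre hρ g hv
      rw [hg] at h2
      have h3 := act_pre hρ κ h2
      rw [hκu] at h3
      have h4 := (fixSub ρ w).inv_mem (show g ∈ fixSub ρ w from hw') _ h3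
      rw [hc, inv_inv]
      simp only [map_mul, Equiv.Perm.coe_mul, Function.comp_apply]
      rw [h4]
      simp
  intro g u
  refine cone_mem hρ _ u (m := max u.1.length (max m₁ z.1.length)) (le_max_left _ _) H _
    fun x hx _ => ?_
  obtain ⟨x', hx', hzx⟩ := exists_desc hρ.1 z (n := x.1.length) (by rw [hx]; omega)
  obtain ⟨t, ht⟩ := hρ.2.2.2.1 x x' hx'.symm
  rw [← fm_conj hρ g t x, ht]
  exact hB _ _ hzx (by rw [hx', hx]; omega)

end action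

end Pool.Agent.Lib.MP_53c676_al
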