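import Pool.Agent.Lib.MP_53c676_al.SX.Supp

/-!
Minimality and commensurability types of rigid stabilizers.
-/

namespace Pool.Agent.Lib.MP_53c676_al

universe u

open Subgroup

section
variable {A B A' B' : Type u} [Group A] [Group B] [Group A'] [Group B']

theorem fi_prod {U : Subgroup A} {V : Subgroup B} (hU : U.FiniteIndex) (hV : V.FiniteIndex) :
    (U.prod V).FiniteIndex := by
  refine ⟨?_⟩
  rw [index_prod]
  exact mul_ne_zero hU.index_ne_zero hV.index_ne_zero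

theorem VE.prod (h : VE A B) (h' : VE A' B') : VE (A × A') (B × B') := by
  obtain ⟨C, _, p, q, hp, hq, hp', hq'⟩ := h
  obtain ⟨C', _, r, s, hr, hs, hr', hs'⟩ := h'
  refine ⟨C × C', inferInstance, p.prodMap r, q.prodMap s, hp.prodMap hr, hq.prodMap hs, ?_, ?_⟩
  · rw [MonoidHom.range_prodMap]; exact fi_prod hp' hr'
  · rw [MonoidHom.range_prodMap]; exact fi_prod hq' hs'

theorem VE.add (a b : ℕ) : VE (Fin (a + b) → A) ((Fin a → A) × (Fin b → A)) :=
  (VE.of_card_eq (X := Fin a ⊕ Fin b) (by simp)).trans (VE.of_equiv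
    { toFun := fun y => (fun i => y (Sum.inl i), fun i => y (Sum.inr i))
      invFun := fun z => Sum.elim z.1 z.2
      left_inv := fun y => by funext t; cases t <;> rfl
      right_inv := fun _ => rfl
      map_mul' := fun _ _ => rfl })

theorem VE.cast {a b : ℕ} (h : a = b) : VE (Fin a → A) (Fin b → A) := by
  subst h; exact VE.refl

theorem VE.shift {a b : ℕ} (h : VE (Fin a → A) (Fin b → A)) (t : ℕ) :
    VE (Fin (a + t) → A) (Fin (b + t) → A) :=
  (VE.add a t).trans ((h.prod VE.refl).trans (VE.add b t).symm)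

theorem VE.mul (a b : ℕ) : VE (Fin (a * b) → A) (Fin a → Fin b → A) :=
  (VE.of_card_eq (X := Fin a × Fin b) (by simp)).trans (VE.curry _ _)

theorem VE.reduce {a b : ℕ} (hab : a < b) (h : VE (Fin a → A) (Fin b → A)) (n : ℕ) :
    ∃ j < b, VE (Fin n → A) (Fin j → A) := by
  induction n using Nat.strong_induction_on with
  | _ n ih =>
    by_cases hn : n < b
    · exact ⟨n, hn, VE.refl⟩
    · obtain ⟨j, hj, hve⟩ := ih (a + (n - b)) (by omega)
      exact ⟨j, hj, (VE.cast (by omega)).trans ((h.shift (n - b)).symm.trans hve)⟩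

theorem VE.iter {a d : ℕ} (h : VE (Fin a → A) (Fin (a + d) → A)) (t : ℕ) :
    VE (Fin a → A) (Fin (a + t * d) → A) := by
  induction t with
  | zero => exact VE.cast (by simp)
  | succ t ih =>
    exact h.trans ((ih.shift d).trans (VE.cast (by ring)))

end

section action
variable {k : ℕ → ℕ} {G : Type u} [Group G] {ρ : G →* Equiv.Perm (Vertex k)}
variable (hρ : IsBranchAction k ρ)
include hρ

theorem ve_level' (n : ℕ) : VE (Fin (Nat.card (Lv k n)) → RB hρ n) G :=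
  (VE.of_card_eq (by simp)).trans (ve_level hρ n)

/-- A minimal group satisfies one fixed relation between powers of all deep rigid
stabilizers. -/
theorem fixed_rel (hJ : IsJustInfinite G) (h : IsMinimalGroup G) :
    ∃ m₀ a b : ℕ, a < b ∧ ∀ m, m₀ ≤ m → VE (Fin a → RB hρ m) (Fin b → RB hρ m) := by
  have := hJ.1
  obtain ⟨C, _, p, q, hp, hp', hq', hker⟩ := exists_span hρ hJ h
  obtain ⟨m₀, hm₀⟩ := orbit_stab hρ hq'
  obtain ⟨n₁, hn₁⟩ := sup_dich hρ (q := q) hJ hp' m₀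
  obtain ⟨n₀, hn₀, hn₀'⟩ : ∃ n₀, n₁ ≤ n₀ ∧ 1 ≤ n₀ := ⟨max n₁ 1, le_max_left _ _, le_max_right _ _⟩
  obtain ⟨x₁, hx₁, hx₁'⟩ := exists_desc hρ.1 (v1 hρ.1).1 (n := n₀)
    (by rw [(v1 hρ.1).2]; exact hn₀')
  have := lv_nonempty hρ m₀
  obtain ⟨z, hz⟩ := exists_small_fibre (X := {x : Lv k n₀ // x ≠ ⟨x₁, hx₁⟩})
    (fun (z : Lv k m₀) x => Sup ρ p q z.1 x.1.1) fun z z' x h1 h2 => sup_disj hρ hp' hq' h1 h2
  have hlt : Nat.card {x : Lv k n₀ // Sup ρ p q z.1 x.1} * Nat.card (Lv k m₀) <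
      Nat.card (Lv k n₀) := by
    refine lt_of_le_of_lt (le_trans (Nat.mul_le_mul_right _ ?_) hz)
      (Finite.card_subtype_lt (x := ⟨x₁, hx₁⟩) fun h0 => h0 rfl)
    refine Nat.card_le_card_of_injective (fun x => ⟨⟨x.1, fun h0 => ?_⟩, x.2⟩) ?_
    · have h1 := x.2
      rw [h0] at h1
      exact not_sup hρ hker hx₁' h1
    · intro x y hxy
      exact Subtype.ext (congrArg (fun t => t.1.1) hxy)
  refine ⟨m₀, _, _, hlt, fun m hm => ?_⟩
  obtain ⟨n₂, hn₂⟩ := sup_dich hρ (q := q) hJ hp' m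
  obtain ⟨n, hn, hn', hn''⟩ : ∃ n, n₂ ≤ n ∧ n₀ ≤ n ∧ m ≤ n :=
    ⟨max n₂ (max n₀ m), le_max_left _ _, by omega, by omega⟩
  obtain ⟨y₀, hy₀, hy₀'⟩ := exists_desc hρ.1 z.1 (n := m) (by rw [z.2]; exact hm)
  have e1 : Nat.card {x : Lv k n // Sup ρ p q z.1 x.1} =
      Nat.card {y : Lv k m // z.1.1 <+: y.1.1} * Nat.card {x : Lv k n // Sup ρ p q y₀ x.1} := by
    refine sx_card_cover _ (fun (y : {y : Lv k m // z.1.1 <+: y.1.1}) (x : Lv k n) =>
      Sup ρ p q y.1.1 x.1) (fun y y' x h1 h2 => Subtype.ext (sup_disj hρ hp' hq' h1 h2))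
      (fun x => ⟨sup_cover hρ hp (by rw [z.2]; exact hm)
        fun y hy => hn₂ y x.1 hy (by rw [x.2]; exact hn), fun ⟨y, hy⟩ => sup_mono y.2 hy⟩) _
      fun y => ?_
    have t1 : tk m₀ y₀ = z.1 := by have := pre_iff_tk.mp hy₀'; rwa [z.2] at this
    have t2 : tk m₀ y.1.1 = z.1 := by have := pre_iff_tk.mp y.2; rwa [z.2] at this
    obtain ⟨_, ⟨c, rfl⟩, hc⟩ := hm₀ y₀ y.1.1 (by rw [hy₀, y.1.2]) (by rw [hy₀]; exact hm)
      (t1.trans t2.symm)
    rw [← hc]
    exact (card_sup_act hρ c n).symm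
  have e2 : Nat.card {x : Lv k n // Sup ρ p q z.1 x.1} =
      Nat.card {x : Lv k n₀ // Sup ρ p q z.1 x.1} * dc hρ n₀ n := by
    refine card_lift hρ _ _ fun x => ⟨fun hx => ?_, fun ⟨w, hw⟩ => sup_down hw w.2⟩
    have hl : (tk n₀ x.1).1.length = n₀ := tk_len n₀ x.1 (by rw [x.2]; exact hn')
    exact ⟨⟨⟨tk n₀ x.1, hl⟩, sup_up hρ (tk_pre n₀ x.1)
      (hn₁ z.1 _ z.2 (by rw [hl]; exact hn₀)) hx⟩, tk_pre n₀ x.1⟩
  rw [card_desc hρ z m] at e1
  have hve : VE (Fin (Nat.card {x : Lv k n // Sup ρ p q y₀ x.1}) → RB hρ n) (RB hρ m) :=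
    (VE.of_card_eq (by simp)).trans (sup_ve hρ hp hp' hq' ⟨y₀, hy₀⟩
      (fun x : Lv k n => Sup ρ p q y₀ x.1) (fun _ hx => hx)
      fun x hx => (hn₂ y₀ x.1 hy₀ (by rw [x.2]; exact hn)).resolve_left hx)
  have f1 := card_lv hρ hm
  have f2 := card_lv hρ hn'
  have f3 := card_lv hρ hn''
  generalize Nat.card {x : Lv k n // Sup ρ p q y₀ x.1} = s at e1 hve
  generalize Nat.card {x : Lv k n₀ // Sup ρ p q z.1 x.1} = σ at e2 ⊢
  have key : σ * Nat.card (Lv k m₀) * dc hρ m n = Nat.card (Lv k n₀) * s := by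
    refine Nat.eq_of_mul_eq_mul_left (card_lv_pos hρ m) ?_
    calc Nat.card (Lv k m) * (σ * Nat.card (Lv k m₀) * dc hρ m n)
        = σ * Nat.card (Lv k m₀) * (Nat.card (Lv k m) * dc hρ m n) := by ring
      _ = σ * Nat.card (Lv k m₀) * (Nat.card (Lv k n₀) * dc hρ n₀ n) := by rw [← f3, f2]
      _ = (σ * dc hρ n₀ n) * Nat.card (Lv k m₀) * Nat.card (Lv k n₀) := by ring
      _ = (dc hρ m₀ m * s) * Nat.card (Lv k m₀) * Nat.card (Lv k n₀) := by rw [← e2, e1]
      _ = (Nat.card (Lv k m₀) * dc hρ m₀ m) * (Nat.card (Lv k n₀) * s) := by ring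
      _ = Nat.card (Lv k m) * (Nat.card (Lv k n₀) * s) := by rw [← f1]
  exact (VE.pi _ (ve_desc hρ hn'').symm).trans ((VE.mul _ _).symm.trans ((VE.cast key).trans
    ((VE.mul _ _).trans (VE.pi _ hve))))

/-- A minimal group has finitely many commensurability types of rigid stabilizers. -/
theorem finite_types (hJ : IsJustInfinite G) (h : IsMinimalGroup G) :
    ∃ n, ∀ m, ∃ m' ≤ n, VE (RB hρ m) (RB hρ m') := by
  classical
  obtain ⟨m₀, a, b, hab, hrel⟩ := fixed_rel hρ hJ h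
  let s : Setoid ℕ := ⟨fun m m' => VE (RB hρ m) (RB hρ m'),
    ⟨fun _ => VE.refl, fun h => h.symm, fun h h' => h.trans h'⟩⟩
  have hfin : Finite (Quotient s) := by
    by_contra hinf
    rw [not_finite_iff_infinite] at hinf
    let e : Fin (b + 1) → Quotient s := fun i => Infinite.natEmbedding (Quotient s) i
    let n := max m₀ (Finset.univ.sup fun i => (e i).out)
    have h1 : ∀ i, ∃ j : Fin b, VE (RB hρ (e i).out) (Fin j → RB hρ n) := by
      intro i
      have hi : (e i).out ≤ n := le_max_of_le_right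
        (Finset.le_sup (f := fun i => (e i).out) (Finset.mem_univ i))
      obtain ⟨j, hj, hve⟩ := VE.reduce hab (hrel n (le_max_left _ _)) (dc hρ (e i).out n)
      exact ⟨⟨j, hj⟩, (ve_desc hρ hi).symm.trans hve⟩
    choose f hf using h1
    obtain ⟨i, i', hne, hii⟩ := Fintype.exists_ne_map_eq_of_card_lt f (by simp)
    apply hne
    have h2 : s (e i).out (e i').out := (hf i).trans (by rw [hii]; exact (hf i').symm)
    have h3 : e i = e i' := Quotient.out_equiv_out.mp h2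
    exact Fin.ext ((Infinite.natEmbedding (Quotient s)).injective h3)
  have := Fintype.ofFinite (Quotient s)
  refine ⟨Finset.univ.sup fun c : Quotient s => c.out, fun m => ⟨(Quotient.mk s m).out,
    Finset.le_sup (f := fun c : Quotient s => c.out) (Finset.mem_univ _), ?_⟩⟩
  exact s.symm (Quotient.mk_out m)

theorem ve_rb (u : Vertex k) : VE (RB hρ u.1.length) (rist ρ u) :=
  ve_rist hρ (⟨u, rfl⟩ : Lv k u.1.length)

theorem self_pow {m j : ℕ} (hj : j < Nat.card (Lv k m)) (h : VE G (Fin j → RB hρ m)) :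
    ∃ b, 2 ≤ b ∧ VE G (Fin b → G) := by
  obtain ⟨d, hd⟩ := Nat.exists_eq_add_of_lt hj
  have h1 : VE (Fin (Nat.card (Lv k m)) → RB hρ m)
      (Fin (Nat.card (Lv k m) + (d + 1)) → RB hρ m) :=
    (VE.cast (by omega)).trans ((h.symm.trans (ve_level' hρ m).symm).shift (d + 1))
  refine ⟨d + 2, by omega, (ve_level' hρ m).symm.trans ((h1.iter (Nat.card (Lv k m))).trans
    ((VE.cast (b := (d + 2) * Nat.card (Lv k m)) (by ring)).trans
      ((VE.mul _ _).trans (VE.pi _ (ve_level' hρ m)))))⟩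

theorem criterion_types (hJ : IsJustInfinite G) :
    List.TFAE [IsMinimalGroup G,
      ∃ a b : ℕ, a ≠ b ∧ AbsComm (Fin a → G) (Fin b → G),
      ∃ (u : Vertex k) (j : ℕ), j < Nat.card {v : Vertex k // v.1.length = u.1.length} ∧
        AbsComm G (Fin j → rist ρ u),
      ∃ b : ℕ, 2 ≤ b ∧ AbsComm G (Fin b → G),
      ∃ u v : Vertex k, u.1.length ≠ v.1.length ∧ AbsComm (rist ρ u) (rist ρ v),
      ∃ n : ℕ, ∀ u : Vertex k, ∃ v : Vertex k, v.1.length ≤ n ∧
        AbsComm (rist ρ u) (rist ρ v)] := by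
  tfae_have 1 ↔ 2 := (criterion hρ hJ).out 0 1
  tfae_have 1 ↔ 3 := (criterion hρ hJ).out 0 2
  tfae_have 3 → 4 := by
    rintro ⟨u, j, hj, hve⟩
    obtain ⟨b, hb, h⟩ := self_pow hρ hj
      ((absComm_iff.mp hve).trans (VE.pi (Fin j) (ve_rb hρ u).symm))
    exact ⟨b, hb, absComm_iff.mpr h⟩
  tfae_have 4 → 2 := by
    rintro ⟨b, hb, h⟩
    refine ⟨1, b, by omega, absComm_iff.mpr (VE.trans ?_ (absComm_iff.mp h))⟩
    exact (VE.of_card_eq (X := Unit) (by simp)).trans VE.unit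
  tfae_have 1 → 6 := by
    intro h
    obtain ⟨n, hn⟩ := finite_types hρ hJ h
    refine ⟨n, fun u => ?_⟩
    obtain ⟨m', hm', hve⟩ := hn u.1.length
    exact ⟨(v0 hρ.1 m').1, by rw [(v0 hρ.1 m').2]; exact hm',
      absComm_iff.mpr ((ve_rb hρ u).symm.trans hve)⟩
  tfae_have 6 → 5 := by
    rintro ⟨n, hn⟩
    obtain ⟨v, hv, h⟩ := hn (v0 hρ.1 (n + 1)).1
    exact ⟨_, v, by rw [(v0 hρ.1 (n + 1)).2]; omega, h⟩
  tfae_have 5 → 3 := by
    have key : ∀ u v : Vertex k, u.1.length < v.1.length → VE (rist ρ u) (rist ρ v) →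
        ∃ (u : Vertex k) (j : ℕ), j < Nat.card {v : Vertex k // v.1.length = u.1.length} ∧
          AbsComm G (Fin j → rist ρ u) := fun u v hlt h =>
      ⟨v, Nat.card (Lv k u.1.length), card_lv_lt hρ hlt, absComm_iff.mpr
        ((ve_level' hρ _).symm.trans (VE.pi _ ((ve_rb hρ u).trans h)))⟩
    rintro ⟨u, v, hne, h⟩
    rw [absComm_iff] at h
    rcases lt_or_gt_of_ne hne with h1 | h1
    · exact key u v h1 h
    · exact key v u h1 h.symm
  tfae_finish

end action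

end Pool.Agent.Lib.MP_53c676_al
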