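import Pool.Agent.Lib.MP_53c676_al.SX.GriWr
import Pool.Agent.Lib.MP_53c676_al.SX.Period

/-!
The Grigorchuk groups are just infinite branch groups.
-/

namespace Pool.Agent.Lib.MP_53c676_al

open Equiv Subgroup
open scoped commutatorElement

theorem dih_finite {Q : Type} [Group Q] {x y : Q} (hx : x * x = 1) (hy : y * y = 1)
    (hf : IsOfFinOrder (x * y)) (h : ∀ g : Q, g ∈ closure {x, y}) : Finite Q := by
  have hxi : x⁻¹ = x := inv_eq_of_mul_eq_one_right hx
  have hyi : y⁻¹ = y := inv_eq_of_mul_eq_one_right hy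
  have h1 : ∀ z ∈ zpowers (x * y), x * z * x ∈ zpowers (x * y) := by
    rintro _ ⟨t, rfl⟩
    have e : x * (x * y) * x⁻¹ = (x * y)⁻¹ := by
      rw [← mul_assoc, hx, one_mul, mul_inv_rev, hyi]
    refine ⟨-t, ?_⟩
    show (x * y) ^ (-t) = x * (x * y) ^ t * x
    rw [zpow_neg, ← inv_zpow, ← e, conj_zpow, hxi]
  have h2 : ∀ g : Q, (g ∈ zpowers (x * y) ∨ g * x ∈ zpowers (x * y)) →
      (x * g ∈ zpowers (x * y) ∨ x * g * x ∈ zpowers (x * y)) := by
    rintro g (hg | hg)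
    · exact Or.inr (h1 g hg)
    · left
      have := h1 _ hg
      rwa [← mul_assoc, mul_assoc _ x x, hx, mul_one] at this
  have h3 : ∀ s ∈ ({x, y} : Set Q), ∀ g : Q, (g ∈ zpowers (x * y) ∨ g * x ∈ zpowers (x * y)) →
      (s * g ∈ zpowers (x * y) ∨ s * g * x ∈ zpowers (x * y)) := by
    rintro s (rfl | rfl) g hg
    · exact h2 g hg
    · have e : s * g = x * (x * s * g) := by rw [← mul_assoc, ← mul_assoc, hx, one_mul]
      rw [e]
      refine h2 _ (hg.imp (fun h => mul_mem (mem_zpowers _) h) fun h => ?_)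
      rw [mul_assoc (x * s)]
      exact mul_mem (mem_zpowers _) h
  have h4 : ∀ g : Q, g ∈ zpowers (x * y) ∨ g * x ∈ zpowers (x * y) := by
    intro g
    refine closure_induction_left (p := fun g _ => g ∈ zpowers (x * y) ∨ g * x ∈ zpowers (x * y))
      (Or.inl (one_mem _)) (fun s hs g _ hg => h3 s hs g hg) (fun s hs g _ hg => ?_) (h g)
    have e : s⁻¹ = s := by
      rcases hs with rfl | rfl
      · exact hxi
      · exact hyi
    rw [e]
    exact h3 s hs g hg
  refine (finite_iff_finite_and_finiteIndex (zpowers (x * y))).mpr ⟨hf.finite_zpowers, ⟨?_⟩⟩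
  exact ne_zero_of_dvd_ne_zero two_ne_zero (index_dvd_two_iff.mpr ⟨x, fun b => (h4 b).symm⟩)

theorem central_fi {H : Type} [Group H] [Group.FG H]
    (hgen : ∀ S : Subgroup H, (∀ g, g * g = 1 → g ∈ S) → S = ⊤) {N K : Subgroup H} [N.Normal]
    (hK : K.FiniteIndex) (h : ⁅(⊤ : Subgroup H), K⁆ ≤ N) : N.FiniteIndex := by
  have hc : (center (H ⧸ N)).FiniteIndex := by
    refine fi_le (fi_map (QuotientGroup.mk' N) hK
      (fi_range_of_surj _ (QuotientGroup.mk'_surjective N))) ?_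
    rintro _ ⟨κ, hκ, rfl⟩
    rw [mem_center_iff]
    intro q
    obtain ⟨g, rfl⟩ := QuotientGroup.mk'_surjective N q
    rw [← commutatorElement_eq_one_iff_mul_comm, ← map_commutatorElement, ← MonoidHom.mem_ker,
      QuotientGroup.ker_mk']
    exact h (commutator_mem_commutator (mem_top g) hκ)
  let _ : CommGroup (center (H ⧸ N)) :=
    { (inferInstance : Group (center (H ⧸ N))) with
      mul_comm := fun a b => Subtype.ext (mem_center_iff.mp b.2 a.1) }
  let t : H →* center (H ⧸ N) := (powMonoidHom 2).comp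
    ((MonoidHom.transferCenterPow (H ⧸ N)).comp (QuotientGroup.mk' N))
  have ht : t.ker = ⊤ := hgen _ fun g hg => by
    show (MonoidHom.transferCenterPow (H ⧸ N) (QuotientGroup.mk' N g)) ^ 2 = 1
    rw [← map_pow, ← map_pow, pow_two, hg, map_one, map_one]
  have hfin : Finite (center (H ⧸ N)) := by
    refine CommGroup.finite_of_fg_isMulTorsion _ fun z => ?_
    refine isOfFinOrder_iff_pow_eq_one.mpr ⟨(center (H ⧸ N)).index * 2,
      Nat.mul_pos (Nat.pos_of_ne_zero hc.index_ne_zero) two_pos, ?_⟩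
    obtain ⟨g, hg⟩ := QuotientGroup.mk'_surjective N z.1
    have h1 : t g = 1 := by rw [← MonoidHom.mem_ker, ht]; exact mem_top g
    have h2 : ((MonoidHom.transferCenterPow (H ⧸ N) (QuotientGroup.mk' N g)) ^ 2 :
      center (H ⧸ N)) = 1 := h1
    have h3 := congrArg Subtype.val h2
    rw [SubgroupClass.coe_pow, MonoidHom.transferCenterPow_apply, hg, ← pow_mul] at h3
    exact Subtype.ext h3
  have : Finite (H ⧸ N) := (finite_iff_finite_and_finiteIndex _).mpr ⟨hfin, hc⟩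
  exact finiteIndex_of_finite_quotient

/-- Not eventually constant. -/
def NEC (ω : ℕ → Fin 3) : Prop := ∀ (i : Fin 3) (N : ℕ), ∃ n, N ≤ n ∧ ω n ≠ i

variable {ω : ℕ → Fin 3}

theorem NEC.shf (h : NEC ω) : NEC (shf ω) := fun i N => by
  obtain ⟨n, hn, hi⟩ := h i (N + 1)
  obtain ⟨m, rfl⟩ : ∃ m, n = m + 1 := ⟨n - 1, by omega⟩
  exact ⟨m, by omega, hi⟩

/-- The generator `a` as a group element. -/
noncomputable def eA (ω : ℕ → Fin 3) : griGroup ω := ⟨ga, ga_mem ω⟩

/-- The directed generators as group elements. -/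
def eS (i : Fin 3) (ω : ℕ → Fin 3) : griGroup ω := ⟨gs i ω, gs_mem i ω⟩

theorem gri_ind (S : Subgroup (griGroup ω)) (ha : eA ω ∈ S) (hs : ∀ i, eS i ω ∈ S) : S = ⊤ := by
  have h1 : griGroup ω ≤ S.map (griGroup ω).subtype := by
    conv_lhs => rw [griGroup_eq]
    rw [closure_le]
    rintro g (rfl | ⟨i, rfl⟩)
    · exact ⟨_, ha, rfl⟩
    · exact ⟨_, hs i, rfl⟩
  rw [eq_top_iff]
  intro g _
  obtain ⟨g', hg', e⟩ := h1 g.2
  rwa [← (Subtype.ext e : g' = g)]

theorem gri_ind2 (S : Subgroup (griGroup ω)) (ha : eA ω ∈ S) {i j : Fin 3} (hij : i ≠ j)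
    (hi : eS i ω ∈ S) (hj : eS j ω ∈ S) : S = ⊤ := by
  refine gri_ind S ha fun l => ?_
  by_cases h1 : i = l
  · exact h1 ▸ hi
  by_cases h2 : j = l
  · exact h2 ▸ hj
  have e : eS l ω = eS i ω * eS j ω := Subtype.ext (gs_mul hij h1 h2 ω).symm
  rw [e]
  exact mul_mem hi hj

theorem gri_fg (ω : ℕ → Fin 3) : Group.FG (griGroup ω) := by
  rw [Group.fg_iff_subgroup_fg, Subgroup.fg_iff]
  refine ⟨_, (griGroup_eq ω).symm, ?_⟩
  exact ((Set.finite_range fun i => gs i ω).insert ga).subset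
    fun g hg => hg.imp id fun ⟨i, hi⟩ => ⟨i, hi.symm⟩

/-- The elements whose copy below the vertex `x` lies in `N`. -/
noncomputable def down (x : Fin 2) (N : Subgroup (griGroup ω)) : Subgroup (griGroup (shf ω)) :=
  (N.map (griGroup ω).subtype).comap ((emb x).comp (griGroup (shf ω)).subtype)

theorem mem_down {x : Fin 2} {N : Subgroup (griGroup ω)} {h : griGroup (shf ω)} :
    h ∈ down x N ↔ ∃ g ∈ N, g.1 = emb x h.1 := Iff.rfl

theorem down_normal (x : Fin 2) (N : Subgroup (griGroup ω)) [hN : N.Normal] :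
    (down x N).Normal := by
  refine ⟨fun h ⟨g, hg, e⟩ c => ?_⟩
  obtain ⟨f, hf, hc⟩ := gri_rep x c.2
  refine ⟨_, hN.conj_mem g hg ⟨_, hf⟩, ?_⟩
  have e' : g.1 = emb x h.1 := e
  show bsec f * g.1 * (bsec f)⁻¹ = emb x (c.1 * h.1 * c.1⁻¹)
  rw [e', emb_apply, emb_apply, ← bsec_apply, ← bsec_apply, ← map_inv, ← map_mul, ← map_mul, ← hc]
  congr 1
  funext y
  by_cases hy : y = x
  · subst hy; simp
  · simp [hy]

theorem down_swap (x : Fin 2) (N : Subgroup (griGroup ω)) [hN : N.Normal] :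
    down 1 N ≤ down x N := by
  fin_cases x
  · rintro h ⟨g, hg, e⟩
    refine ⟨_, hN.conj_mem g hg (eA ω), ?_⟩
    have e' : g.1 = emb 1 h.1 := e
    show ga * g.1 * ga⁻¹ = emb 0 h.1
    rw [e', inv_eq_of_mul_eq_one_right ga_sq, emb_apply, emb_apply, conj_ga]
    congr 1
    funext y
    fin_cases y <;> simp
  · exact le_rfl

theorem down_top_fi (h : NEC ω) (x : Fin 2) : (down x (⊤ : Subgroup (griGroup ω))).FiniteIndex := by
  refine fi_le ?_ (down_swap x ⊤)
  have := down_normal (ω := ω) 1 ⊤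
  obtain ⟨r, -, hr⟩ := h.shf (ω 0) 0
  have h1 : eS (ω 0) (shf ω) ∈ down 1 (⊤ : Subgroup (griGroup ω)) := by
    refine ⟨eS (ω 0) ω, mem_top _, ?_⟩
    show gs (ω 0) ω = emb 1 (gs (ω 0) (shf ω))
    rw [gs_rec, emb_apply]
    congr 1
    funext y
    fin_cases y <;> simp
  let π := QuotientGroup.mk' (down 1 (⊤ : Subgroup (griGroup ω)))
  have : Finite (griGroup (shf ω) ⧸ down 1 (⊤ : Subgroup (griGroup ω))) := by
    refine dih_finite (x := π (eA _)) (y := π (eS (shf ω r) _)) ?_ ?_ ?_ fun g => ?_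
    · rw [← map_mul, show eA (shf ω) * eA (shf ω) = 1 from Subtype.ext ga_sq, map_one]
    · rw [← map_mul, show eS (shf ω r) (shf ω) * eS (shf ω r) (shf ω) = 1 from
        Subtype.ext (gs_sq _ _), map_one]
    · rw [← map_mul]
      exact π.isOfFinOrder (Submonoid.isOfFinOrder_coe.mp (fin_order r (shf ω) _ rfl))
    · obtain ⟨g, rfl⟩ := QuotientGroup.mk'_surjective _ g
      have h2 := gri_ind2 ((closure {π (eA _), π (eS (shf ω r) _)}).comap π)
        (subset_closure (Or.inl rfl)) hr (subset_closure (Or.inr rfl))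
        (by rw [mem_comap, show π (eS (ω 0) (shf ω)) = 1 from (QuotientGroup.eq_one_iff _).mpr h1]
            exact one_mem _)
      exact (h2.ge (mem_top g) :)
  exact finiteIndex_of_finite_quotient

theorem down_fi (h : NEC ω) (x : Fin 2) {K : Subgroup (griGroup ω)} (hK : K.FiniteIndex) :
    (down x K).FiniteIndex := by
  let R := down x (⊤ : Subgroup (griGroup ω))
  let e : R →* griGroup ω :=
    ((emb x).comp ((griGroup (shf ω)).subtype.comp R.subtype)).codRestrict _ fun r => by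
      obtain ⟨g, -, hg⟩ := mem_down.mp r.2
      show emb x r.1.1 ∈ _
      rw [← hg]
      exact g.2
  refine fi_le (fi_map R.subtype (fi_comap e hK) (by rw [range_subtype]; exact down_top_fi h x)) ?_
  rintro _ ⟨r, hr, rfl⟩
  exact ⟨e r, hr, rfl⟩

theorem up_fi {L : Subgroup (griGroup ω)} (h : ∀ x, (down x L).FiniteIndex) : L.FiniteIndex := by
  let j : (Fin 2 → griGroup (shf ω)) →* Perm V2 := bsec.comp (piMap (griGroup (shf ω)).subtype)
  have h1 : (pb1 (griGroup ω).subtype j).range.FiniteIndex := by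
    rw [pb1_range]
    refine ⟨ne_zero_of_dvd_ne_zero two_ne_zero (index_dvd_two_iff.mpr ⟨eA ω, fun b => ?_⟩)⟩
    obtain ⟨τ, f, e, hf⟩ := exists_bw b.2
    rcases perm_two τ with rfl | rfl
    · exact Or.inr ⟨fun x => ⟨f x, hf x⟩, e.symm⟩
    · refine Or.inl ⟨fun x => ⟨f (swap 0 1 x), hf _⟩, ?_⟩
      show _ = b.1 * ga
      rw [e, ga, bw_mul, swap_mul_self]
      rfl
  refine fi_le (fi_map _ (fi_comap (pb2 (griGroup ω).subtype j) (fi_pi h)) h1) ?_
  rintro _ ⟨c, hc, rfl⟩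
  have h2 : pb2 (griGroup ω).subtype j c ∈ (L.map (griGroup ω).subtype).comap j := by
    refine pi_mem_of_mulSingle_mem _ fun x => ?_
    obtain ⟨g, hg, e⟩ := mem_down.mp (hc x trivial)
    refine ⟨g, hg, e.trans ?_⟩
    show bsec _ = bsec _
    congr 1
    funext y
    by_cases hy : y = x
    · subst hy; simp [piMap_apply]
    · simp [piMap_apply, hy]
  obtain ⟨g, hg, e⟩ := h2
  rw [← pb_comm] at e
  rwa [← (Subtype.ext e : g = _)]

theorem emb_rist {x : Fin 2} {u : V2} {h : Perm V2} (hh : ∀ v : V2, ¬ u.1 <+: v.1 → h v = v)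
    (v : V2) (hv : ¬ (bc x u).1 <+: v.1) : emb x h v = v := by
  rw [emb_apply]
  rcases bcases v with rfl | ⟨y, v, rfl⟩
  · exact bw_nil _ _
  · rw [bw_bc]
    by_cases hy : y = x
    · subst hy
      rw [Pi.mulSingle_eq_same, hh v fun h => hv (by simpa using h)]
      rfl
    · rw [Pi.mulSingle_eq_of_ne hy]
      rfl

theorem gri_level (n : ℕ) : ∀ ω : ℕ → Fin 3, NEC ω → ∀ Q : Subgroup (griGroup ω),
    Q.FiniteIndex → (⨆ u : Lv k2 n, Q ⊓ rist (griGroup ω).subtype u.1).FiniteIndex := by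
  induction n with
  | zero =>
    intro ω _ Q hQ
    refine fi_le hQ fun g hg => mem_iSup_of_mem ⟨vnil k2, rfl⟩ ⟨hg, fun v hv => ?_⟩
    exact absurd List.nil_prefix hv
  | succ n ih =>
    intro ω h Q hQ
    refine up_fi fun x => fi_le (ih _ h.shf _ (down_fi h x hQ)) (iSup_le fun u => ?_)
    rintro a ⟨⟨g, hg, e⟩, ha⟩
    refine ⟨g, mem_iSup_of_mem ⟨bc x u.1, by simp [u.2]⟩ ⟨hg, fun v hv => ?_⟩, e⟩
    have e' : g.1 = emb x a.1 := e
    show g.1 v = v
    rw [e']
    exact emb_rist ha v hv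

theorem gri_branch (h : NEC ω) : IsBranchAction k2 (griGroup ω).subtype :=
  ⟨fun _ => le_rfl, fun g u v => gri_child _ ω g.1 g.2 u v rfl, (griGroup ω).subtype_injective,
    fun u v e => by
      obtain ⟨g, hg, e'⟩ := gri_trans _ ω u v e rfl
      exact ⟨⟨g, hg⟩, e'⟩,
    fun n => fi_le (gri_level n ω h ⊤ fi_top) (iSup_mono fun _ => inf_le_right)⟩

/-- The sections at the vertex `1` of the elements of `S` fixing the first level. -/
def secS (S : Subgroup (griGroup ω)) : Subgroup (griGroup (shf ω)) where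
  carrier := {h | ∃ g ∈ S, ∃ f, g.1 = bsec f ∧ f 1 = h.1}
  one_mem' := ⟨1, one_mem _, 1, (map_one bsec).symm, rfl⟩
  mul_mem' := by
    rintro a b ⟨g, hg, f, e, h⟩ ⟨g', hg', f', e', h'⟩
    exact ⟨g * g', mul_mem hg hg', f * f', by rw [map_mul, ← e, ← e']; rfl,
      by rw [Pi.mul_apply, h, h']; rfl⟩
  inv_mem' := by
    rintro a ⟨g, hg, f, e, h⟩
    exact ⟨g⁻¹, inv_mem hg, f⁻¹, by rw [map_inv, ← e]; rfl, by rw [Pi.inv_apply, h]; rfl⟩

theorem secS_normal (S : Subgroup (griGroup ω)) [hS : S.Normal] : (secS S).Normal := by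
  refine ⟨fun h ⟨g, hg, f, e, hf⟩ c => ?_⟩
  obtain ⟨f', hf', hc⟩ := gri_rep 1 c.2
  refine ⟨_, hS.conj_mem g hg ⟨_, hf'⟩, f' * f * f'⁻¹, ?_, ?_⟩
  · rw [map_mul, map_mul, map_inv, ← e]; rfl
  · rw [Pi.mul_apply, Pi.mul_apply, Pi.inv_apply, hf, hc]; rfl

theorem secS_comm {S K N : Subgroup (griGroup ω)} (h : ⁅S, K⁆ ≤ N) :
    ⁅secS S, down 1 K⁆ ≤ down 1 N := by
  rw [commutator_le] at h ⊢
  rintro a ⟨g, hg, f, e, hf⟩ b ⟨g', hg', e'⟩
  refine ⟨_, h g hg g' hg', ?_⟩
  have e'' : g'.1 = emb 1 b.1 := e'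
  show ⁅g.1, g'.1⁆ = emb 1 ⁅a.1, b.1⁆
  rw [e, e'', emb_apply, emb_apply, ← bsec_apply, ← bsec_apply, ← map_commutatorElement, ← hf]
  congr 1
  funext y
  fin_cases y <;> simp [commutatorElement_def]

/-- `S` contains an element that swaps the two vertices of the first level. -/
def RN (S : Subgroup (griGroup ω)) : Prop := ∃ g ∈ S, ∃ f, g.1 = bw (swap 0 1) f

theorem conj_swap_two :
    ∀ τ : Perm (Fin 2), 1 * (τ * (swap (0 : Fin 2) 1)⁻¹ * τ⁻¹) = swap 0 1 := by decide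

theorem rn_step {S : Subgroup (griGroup ω)} [hS : S.Normal] (h : RN S) :
    eS (ω 0) (shf ω) ∈ secS S ∧ RN (secS S) := by
  obtain ⟨g, hg, f, e⟩ := h
  have hf0 : f 0 ∈ griGroup (shf ω) := bw_sec_mem (e ▸ g.2) 0
  have key : ∀ (i : Fin 3) (h : griGroup (shf ω)),
      h.1 = gs i (shf ω) * (f 0 * (if ω 0 = i then 1 else ga)⁻¹ * (f 0)⁻¹) → h ∈ secS S := by
    intro i h hh
    refine ⟨_, mul_mem (hS.conj_mem g hg (eS i ω)) (inv_mem hg), ?_⟩
    show ∃ F, gs i ω * g.1 * (gs i ω)⁻¹ * g.1⁻¹ = bw 1 F ∧ F 1 = h.1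
    rw [gs_rec, e, bw_inv, bw_inv, bw_mul, bw_mul, bw_mul, hh]
    refine ⟨_, by rw [show (1 * swap (0 : Fin 2) 1 * 1⁻¹ * (swap 0 1)⁻¹) = 1 by decide], ?_⟩
    simp [mul_assoc]
  refine ⟨key (ω 0) _ (by simp [eS]), ?_⟩
  obtain ⟨i, hi⟩ := exists_ne3 (ω 0)
  refine ⟨⟨_, mul_mem (gs_mem i _) (mul_mem (mul_mem hf0 (inv_mem (ga_mem _))) (inv_mem hf0))⟩,
    key i _ (by rw [if_neg hi]), ?_⟩
  obtain ⟨τ, f', e', -⟩ := exists_bw hf0
  show ∃ F, gs i (shf ω) * (f 0 * ga⁻¹ * (f 0)⁻¹) = bw (swap 0 1) F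
  rw [gs_rec, e', ga, bw_inv, bw_inv, bw_mul, bw_mul, bw_mul]
  exact ⟨_, by rw [conj_swap_two τ]⟩

theorem up_one {N : Subgroup (griGroup ω)} [N.Normal] (h : (down 1 N).FiniteIndex) :
    N.FiniteIndex := up_fi fun x => fi_le h (down_swap x N)

theorem ji_base (r : ℕ) : ∀ ω : ℕ → Fin 3, NEC ω → ∀ (N S K : Subgroup (griGroup ω)) (j : Fin 3),
    N.Normal → S.Normal → K.FiniteIndex → ⁅S, K⁆ ≤ N → RN S → eS j ω ∈ S → ω r ≠ j →
      N.FiniteIndex := by
  have hj : ∀ (ω : ℕ → Fin 3) (S : Subgroup (griGroup ω)) (j : Fin 3), eS j ω ∈ S →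
      eS j (shf ω) ∈ secS S := fun ω S j h => ⟨_, h, _, gs_rec j ω, rfl⟩
  have h0 : ∀ ω : ℕ → Fin 3, NEC ω → ∀ (N S K : Subgroup (griGroup ω)) (j : Fin 3),
      N.Normal → S.Normal → K.FiniteIndex → ⁅S, K⁆ ≤ N → RN S → eS j ω ∈ S → ω 0 ≠ j →
        N.FiniteIndex := by
    intro ω h N S K j hN hS hK hc hr hs hne
    have h1 : secS S = ⊤ := by
      refine gri_ind2 _ ⟨_, hS.conj_mem _ hs (eA ω), ?_⟩ hne (rn_step hr).1 (hj ω S j hs)
      show ∃ F, ga * gs j ω * ga⁻¹ = bw 1 F ∧ F 1 = ga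
      rw [inv_eq_of_mul_eq_one_right ga_sq, gs_rec, conj_ga]
      exact ⟨_, rfl, by simp [hne]⟩
    have h2 := secS_comm hc
    rw [h1] at h2
    have := down_normal 1 N
    have := gri_fg (shf ω)
    exact up_one (central_fi (fun T hT => gri_ind T (hT _ (Subtype.ext ga_sq))
      fun i => hT _ (Subtype.ext (gs_sq _ _))) (down_fi h 1 hK) h2)
  induction r with
  | zero => exact h0
  | succ r ih =>
    intro ω h N S K j hN hS hK hc hr hs hne
    exact up_one (ih (shf ω) h.shf _ _ _ j (down_normal 1 N) (secS_normal S) (down_fi h 1 hK)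
      (secS_comm hc) (rn_step hr).2 (hj ω S j hs) hne)

theorem ji_move (n : ℕ) : ∀ ω : ℕ → Fin 3, NEC ω → ∀ N S K : Subgroup (griGroup ω),
    N.Normal → S.Normal → K.FiniteIndex → ⁅S, K⁆ ≤ N → ∀ g ∈ S, ∀ v : V2, v.1.length = n →
      g.1 v ≠ v → N.FiniteIndex := by
  induction n with
  | zero =>
    intro ω _ N S K _ _ _ _ g _ v hv hne
    rcases bcases v with rfl | ⟨x, v, rfl⟩
    · exact absurd (gri_nil g.2) hne
    · simp at hv
  | succ n ih =>
    intro ω h N S K hN hS hK hc g hg v hv hne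
    rcases bcases v with rfl | ⟨x, v, rfl⟩
    · simp at hv
    obtain ⟨τ, f, e, hf⟩ := exists_bw g.2
    rcases perm_two τ with rfl | rfl
    · refine up_one (ih (shf ω) h.shf _ _ _ (down_normal 1 N) (secS_normal S) (down_fi h 1 hK)
        (secS_comm hc) ⟨f x, hf x⟩ ?_ v (by simpa using hv) fun h0 => hne ?_)
      · fin_cases x
        · refine ⟨_, hS.conj_mem g hg (eA ω), ?_⟩
          show ∃ F, ga * g.1 * ga⁻¹ = bw 1 F ∧ F 1 = f 0
          rw [inv_eq_of_mul_eq_one_right ga_sq, e, conj_ga]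
          exact ⟨_, rfl, by simp⟩
        · exact ⟨g, hg, f, e, rfl⟩
      · have h1 : f x v = v := h0
        rw [e, bw_bc, h1]
        rfl
    · obtain ⟨r, -, hr⟩ := h.shf (ω 0) 0
      have hrn : RN S := ⟨g, hg, f, e⟩
      exact up_one (ji_base r (shf ω) h.shf _ _ _ (ω 0) (down_normal 1 N) (secS_normal S)
        (down_fi h 1 hK) (secS_comm hc) (rn_step hrn).2 (rn_step hrn).1 hr)

theorem gri_ji (h : NEC ω) : IsJustInfinite (griGroup ω) := by
  have hρ := gri_branch h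
  refine ⟨?_, fun N hN hne => ?_⟩
  · by_contra hfin
    rw [not_infinite_iff_finite] at hfin
    have h1 : StrictMono fun n => Nat.card (Lv k2 n) := fun _ _ hmn => card_lv_lt hρ hmn
    have h2 : ∀ n, Nat.card (Lv k2 n) ≤ Nat.card (griGroup ω) := fun n =>
      Nat.card_le_card_of_surjective
        (fun g : griGroup ω => (⟨g.1 (v0 hρ.1 n).1, (act_len hρ g _).trans (v0 hρ.1 n).2⟩ :
          Lv k2 n)) fun w => ⟨gw hρ w, Subtype.ext (gw_spec hρ w)⟩
    exact absurd ((h1.id_le (Nat.card (griGroup ω) + 1)).trans (h2 _)) (by simp)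
  · obtain ⟨⟨g, hg⟩, hg1⟩ := (ne_bot_iff_exists_ne_one).mp hne
    have h1 : ∃ v, g.1 v ≠ v := by
      by_contra hcon
      push Not at hcon
      exact hg1 (Subtype.ext (Subtype.ext (Equiv.ext hcon)))
    obtain ⟨v, hv⟩ := h1
    have := ji_move _ ω h N N ⊤ hN hN fi_top (commutator_le_left N ⊤) g hg v rfl hv
    infer_instance

theorem gri_ve_rist (n : ℕ) : ∀ ω : ℕ → Fin 3, NEC ω → ∀ u : V2, u.1.length = n →
    VE (rist (griGroup ω).subtype u) (griGroup (shf^[n] ω)) := by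
  induction n with
  | zero =>
    intro ω _ u hu
    refine VE.subgroup _ (fi_le fi_top fun g _ v hv => absurd ?_ hv)
    rw [List.length_eq_zero_iff.mp hu]
    exact List.nil_prefix
  | succ n ih =>
    intro ω h u hu
    rcases bcases u with rfl | ⟨x, u, rfl⟩
    · simp at hu
    refine VE.trans ?_ (ih (shf ω) h.shf u (by simpa using hu))
    let R := rist (griGroup (shf ω)).subtype u
    let C := (down x (⊤ : Subgroup (griGroup ω))).comap R.subtype
    let p₀ : C →* Perm V2 :=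
      (emb x).comp ((griGroup (shf ω)).subtype.comp (R.subtype.comp C.subtype))
    let p₁ : C →* griGroup ω := p₀.codRestrict _ fun c => by
      obtain ⟨g, -, hg⟩ := mem_down.mp c.2
      show emb x c.1.1.1 ∈ _
      exact (show g.1 = emb x c.1.1.1 from hg) ▸ g.2
    refine ⟨C, inferInstance, p₁.codRestrict (rist (griGroup ω).subtype (bc x u))
      fun c => emb_rist c.1.2, C.subtype, fun c d e => ?_, C.subtype_injective,
      fi_range_of_surj _ fun g => ?_, by rw [range_subtype]; exact fi_comap _ (down_top_fi h x)⟩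
    · exact Subtype.ext (Subtype.ext (Subtype.ext
        (emb_inj x (congrArg (fun t => t.1.1) e))))
    · obtain ⟨τ, f, e, hf⟩ := exists_bw g.1.2
      have h1 : ∀ v : V2, ¬ (bc x u).1 <+: v.1 → bw τ f v = v := e ▸ g.2
      have h2 : ∀ y, y ≠ x → ∀ w, τ y = y ∧ f y w = w := fun y hy w => by
        have h3 := h1 (bc y w) fun h4 => hy (Fin.ext (List.cons_prefix_cons.mp h4).1.symm)
        rwa [bw_bc, bc_inj] at h3
      have h3 : τ = 1 := by
        refine (perm_two τ).resolve_right fun h4 => ?_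
        have h5 := fun y hy => (h2 y hy (vnil k2)).1
        rw [h4] at h5
        revert h5
        generalize x = z
        revert z
        decide
      have h4 : g.1.1 = emb x (f x) := by
        rw [e, h3, emb_apply]
        congr 1
        funext y
        by_cases hy : y = x
        · subst hy; simp
        · rw [Pi.mulSingle_eq_of_ne hy]
          exact Equiv.ext fun w => (h2 y hy w).2
      refine ⟨⟨⟨⟨f x, hf x⟩, fun v hv => ?_⟩, g.1, mem_top _, h4⟩,
        Subtype.ext (Subtype.ext h4.symm)⟩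
      have h5 := h1 (bc x v) fun h6 => hv (List.cons_prefix_cons.mp h6).2
      rw [bw_bc, bc_inj] at h5
      exact h5.2

end Pool.Agent.Lib.MP_53c676_al
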