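import Pool.Agent.Lib.MP_53c676_al.Defs

/-!
The Grigorchuk groups `G_ω` acting on the binary rooted tree.
-/

namespace Pool.Agent.Lib.MP_53c676_al

/-- The rooted generator `a`: it swaps the letters `0` and `1` in the first position. -/
def griA : List ℕ → List ℕ
  | [] => []
  | x :: w => (1 - x) :: w

/-- The directed generator attached to the symbol `i`: below the vertex `1^n 0` it acts as the
identity if `ω n = i` and as `a` otherwise.  The symbols `0, 1, 2` give `d_ω, c_ω, b_ω`. -/
def griS (i : Fin 3) : (ℕ → Fin 3) → List ℕ → List ℕ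
  | _, [] => []
  | ω, x :: w => x :: (if x = 0 then (if ω 0 = i then w else griA w)
      else griS i (fun n => ω (n + 1)) w)

/-- The Grigorchuk group `G_ω = ⟨a, b_ω, c_ω, d_ω⟩`. -/
def griGroup (ω : ℕ → Fin 3) : Subgroup (Equiv.Perm (Vertex fun _ => 2)) :=
  Subgroup.closure {g | (∀ v : Vertex fun _ => 2, (g v).1 = griA v.1) ∨
    ∃ i : Fin 3, ∀ v : Vertex fun _ => 2, (g v).1 = griS i ω v.1}

end Pool.Agent.Lib.MP_53c676_al
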