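import Pool.Agent.Lib.MP_53c676_al.SX.GriBr
import Pool.Agent.Lib.MP_53c676_al.SX.Fix

/-!
The Grigorchuk group `G_ω` is minimal iff `ω` is eventually periodic.
-/

namespace Pool.Agent.Lib.MP_53c676_al

open Equiv Subgroup Filter Topology

theorem card_bc (n : ℕ) (x : Fin 2) (A : Lv k2 (n + 1) → Prop) (B : Lv k2 n → Prop)
    (h1 : ∀ v, A v → ∃ w, v.1 = bc x w)
    (h2 : ∀ w : Lv k2 n, A ⟨bc x w.1, by simp [w.2]⟩ ↔ B w) :
    Nat.card {v // A v} = Nat.card {w // B w} := by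
  refine (Nat.card_eq_of_bijective
    (fun w : {w // B w} => (⟨⟨bc x w.1.1, by simp [w.1.2]⟩, (h2 _).mpr w.2⟩ : {v // A v}))
    ⟨fun a b e => ?_, fun v => ?_⟩).symm
  · exact Subtype.ext (Subtype.ext (bc_inj.mp (congrArg (fun t => t.1.1) e)).2)
  · obtain ⟨w, hw⟩ := h1 v.1 v.2
    have h3 : w.1.length = n := by
      have := v.1.2
      rw [hw] at this
      simpa using this
    have h4 : v.1 = ⟨bc x w, by simp [h3]⟩ := Subtype.ext hw
    exact ⟨⟨⟨w, h3⟩, (h2 ⟨w, h3⟩).mp (h4 ▸ v.2)⟩, Subtype.ext h4.symm⟩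

theorem card_lv_succ (n : ℕ) : Nat.card (Lv k2 (n + 1)) = 2 * Nat.card (Lv k2 n) := by
  have h := Nat.card_eq_of_bijective
    (fun p : Fin 2 × Lv k2 n => (⟨bc p.1 p.2.1, by simp [p.2.2]⟩ : Lv k2 (n + 1)))
    ⟨fun a b e => by
      obtain ⟨e1, e2⟩ := bc_inj.mp (congrArg Subtype.val e)
      exact Prod.ext e1 (Subtype.ext e2), fun v => by
      obtain ⟨v, hv⟩ := v
      rcases bcases v with rfl | ⟨x, w, rfl⟩
      · simp at hv
      · exact ⟨(x, ⟨w, by simpa using hv⟩), rfl⟩⟩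
  rw [← h, Nat.card_prod]
  simp

theorem below_bc {x : Fin 2} {u v : V2} (h : (bc x u).1 <+: v.1) :
    ∃ w, v = bc x w ∧ u.1 <+: w.1 := by
  rcases bcases v with rfl | ⟨y, w, rfl⟩
  · simp at h
  · obtain ⟨h1, h2⟩ := List.cons_prefix_cons.mp h
    exact ⟨w, by rw [Fin.ext h1], h2⟩

theorem fm_bw_move {τ : Perm (Fin 2)} (f : Fin 2 → Perm V2) {x : Fin 2} (h : τ x ≠ x) (u : V2) :
    fm (bw τ f) (Cone (bc x u)) = 0 := by
  refine fm_zero fun v hv hfix => ?_
  obtain ⟨w, rfl, -⟩ := below_bc hv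
  have h1 := hfix _ (List.prefix_refl _)
  rw [bw_bc, bc_inj] at h1
  exact h h1.1

section
variable {G : Type} [Group G] {ρ : G →* Perm V2} (hρ : IsBranchAction k2 ρ)
include hρ

theorem fm_bw_fix {τ : Perm (Fin 2)} (f : Fin 2 → Perm V2) {x : Fin 2} (h : τ x = x) (u : V2) :
    fm (bw τ f) (Cone (bc x u)) = fm (f x) (Cone u) / 2 := by
  refine tendsto_nhds_unique ((tendsto_add_atTop_iff_nat 1).mpr (cone_tendsto hρ _ _))
    (((cone_tendsto hρ (f x) u).div_const 2).congr fun n => ?_)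
  rw [fr, fr, sh0, sh0, card_lv_succ, card_bc n x _
    (fun w : Lv k2 n => Cone u w.1 ∧ FixAt (f x) w.1)]
  · push_cast
    rw [div_div, mul_comm]
  · intro v hv
    obtain ⟨w, hw, -⟩ := below_bc hv.1
    exact ⟨w, hw⟩
  · intro w
    refine and_congr (List.cons_prefix_cons.trans (and_iff_right rfl)) ⟨fun h1 v hv => ?_,
      fun h1 v hv => ?_⟩
    · have h2 := h1 (bc x v) (List.cons_prefix_cons.mpr ⟨rfl, hv⟩)
      rw [bw_bc, bc_inj] at h2
      exact h2.2
    · obtain ⟨v, rfl, hv'⟩ := below_bc hv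
      rw [bw_bc, h, h1 v hv']

theorem fm_root (σ : Perm V2) : fm σ (Cone (vnil k2)) =
    fm σ (Cone (bc 0 (vnil k2))) + fm σ (Cone (bc 1 (vnil k2))) := by
  have := Fintype.ofFinite {u : Lv k2 1 // Cone (vnil k2) u.1}
  rw [fm_sum hρ σ (A := Cone (vnil k2)) (fun _ _ _ _ => List.nil_prefix) 1
    fun _ _ _ => List.nil_prefix,
    ← Fin.sum_univ_two fun x => fm σ (Cone (bc x (vnil k2)))]
  refine (Fintype.sum_bijective (fun x : Fin 2 =>
    (⟨⟨bc x (vnil k2), rfl⟩, List.nil_prefix⟩ : {u : Lv k2 1 // Cone (vnil k2) u.1}))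
    ⟨fun a b e => (bc_inj.mp (congrArg (fun t => t.1.1) e)).1, ?_⟩ _ _ fun _ => rfl).symm
  rintro ⟨⟨v, hv⟩, h⟩
  rcases bcases v with rfl | ⟨x, w, rfl⟩
  · simp at hv
  · have h1 : w = vnil k2 := Subtype.ext (by simpa using hv)
    subst h1
    exact ⟨x, rfl⟩

theorem fm_one : fm (1 : Perm V2) (Cone (vnil k2)) = 1 := by
  have h : ∀ n, fr (1 : Perm V2) (Cone (vnil k2)) n = 1 := fun n => by
    rw [fr, sh0, Nat.card_congr (Equiv.subtypeUnivEquiv fun _ => ⟨List.nil_prefix, fun _ _ => rfl⟩)]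
    exact div_self (by exact_mod_cast (card_lv_pos hρ n).ne')
  simp [fm, h]

theorem fm_swap (f : Fin 2 → Perm V2) : fm (bw (swap 0 1) f) (Cone (vnil k2)) = 0 := by
  rw [fm_root hρ, fm_bw_move f (by decide), fm_bw_move f (by decide), add_zero]

theorem fm_sec (f : Fin 2 → Perm V2) : fm (bw 1 f) (Cone (vnil k2)) =
    fm (f 0) (Cone (vnil k2)) / 2 + fm (f 1) (Cone (vnil k2)) / 2 := by
  rw [fm_root hρ, fm_bw_fix hρ f rfl, fm_bw_fix hρ f rfl]

end

/-- The measure of the interior of the fixed point set of a directed generator. -/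
noncomputable def gX (i : Fin 3) (ω : ℕ → Fin 3) : ℝ := fm (gs i ω) (Cone (vnil k2))

/-- Rational numbers plus integral combinations of the three measures. -/
def gT (ω : ℕ → Fin 3) : AddSubgroup ℝ where
  carrier := {t | ∃ (r : ℚ) (a b c : ℤ), t = r + a * gX 0 ω + b * gX 1 ω + c * gX 2 ω}
  zero_mem' := ⟨0, 0, 0, 0, by simp⟩
  add_mem' := by
    rintro _ _ ⟨r, a, b, c, rfl⟩ ⟨r', a', b', c', rfl⟩
    exact ⟨r + r', a + a', b + b', c + c', by push_cast; ring⟩
  neg_mem' := by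
    rintro _ ⟨r, a, b, c, rfl⟩
    exact ⟨-r, -a, -b, -c, by push_cast; ring⟩

/-- The nucleus. -/
def Nuc (ω : ℕ → Fin 3) (g : Perm V2) : Prop := g = 1 ∨ g = ga ∨ ∃ i, g = gs i ω

/-- All sections on level `n` lie in the nucleus. -/
def Dep : ℕ → (ℕ → Fin 3) → Perm V2 → Prop
  | 0, ω, g => Nuc ω g
  | n + 1, ω, g => ∃ τ f, g = bw τ f ∧ ∀ x, Dep n (shf ω) (f x)

variable {ω : ℕ → Fin 3}

theorem nuc_gs (i : Fin 3) (ω : ℕ → Fin 3) (x : Fin 2) :
    Nuc (shf ω) (![if ω 0 = i then 1 else ga, gs i (shf ω)] x) := by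
  revert x
  refine Fin.forall_fin_two.mpr ⟨?_, Or.inr (Or.inr ⟨i, rfl⟩)⟩
  show Nuc _ (if ω 0 = i then 1 else ga)
  split_ifs
  · exact Or.inl rfl
  · exact Or.inr (Or.inl rfl)

theorem dep_succ (n : ℕ) : ∀ (ω : ℕ → Fin 3) (g : Perm V2), Dep n ω g → Dep (n + 1) ω g := by
  induction n with
  | zero =>
    rintro ω g (rfl | rfl | ⟨i, rfl⟩)
    · exact ⟨1, 1, bw_one.symm, fun _ => Or.inl rfl⟩
    · exact ⟨_, 1, rfl, fun _ => Or.inl rfl⟩
    · exact ⟨_, _, gs_rec i ω, nuc_gs i ω⟩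
  | succ n ih =>
    rintro ω g ⟨τ, f, e, h⟩
    exact ⟨τ, f, e, fun x => ih _ _ (h x)⟩

theorem exists_third : ∀ i j : Fin 3, i ≠ j → ∃ l, i ≠ l ∧ j ≠ l := by decide

theorem dep_mul (n : ℕ) : ∀ (ω : ℕ → Fin 3) (g h : Perm V2), Dep n ω g → Dep n ω h →
    Dep (n + 1) ω (g * h) := by
  induction n with
  | zero =>
    intro ω g h hg hh
    rcases hg with rfl | rfl | ⟨i, rfl⟩
    · rw [one_mul]; exact dep_succ 0 ω h hh
    · rcases hh with rfl | rfl | ⟨j, rfl⟩
      · rw [mul_one]; exact dep_succ 0 ω _ (Or.inr (Or.inl rfl))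
      · rw [ga_sq]; exact dep_succ 0 ω _ (Or.inl rfl)
      · refine ⟨_, _, by rw [gs_rec, ga, bw_mul], fun x => ?_⟩
        rw [Pi.one_apply, one_mul]
        exact nuc_gs j ω x
    · rcases hh with rfl | rfl | ⟨j, rfl⟩
      · rw [mul_one]; exact dep_succ 0 ω _ (Or.inr (Or.inr ⟨i, rfl⟩))
      · refine ⟨swap 0 1, fun x => ![if ω 0 = i then 1 else ga, gs i (shf ω)] (swap 0 1 x), ?_,
          fun x => nuc_gs i ω _⟩
        rw [gs_rec]
        exact bext (by simp [ga]) fun x w => by simp [ga]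
      · by_cases hij : i = j
        · rw [hij, gs_sq]; exact dep_succ 0 ω _ (Or.inl rfl)
        · obtain ⟨l, h1, h2⟩ := exists_third i j hij
          rw [gs_mul hij h1 h2]
          exact dep_succ 0 ω _ (Or.inr (Or.inr ⟨l, rfl⟩))
  | succ n ih =>
    rintro ω g h ⟨τ, f, rfl, hf⟩ ⟨τ', f', rfl, hf'⟩
    exact ⟨_, _, bw_mul _ _ _ _, fun x => ih _ _ _ (hf _) (hf' _)⟩

theorem mem_dep {g : Perm V2} (hg : g ∈ griGroup ω) : ∃ n, Dep n ω g := by
  rw [griGroup_eq] at hg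
  have h1 : ∀ x, Nuc ω x → ∀ n, Dep n ω x := fun x hx n => by
    induction n with
    | zero => exact hx
    | succ n ih => exact dep_succ n ω x ih
  refine closure_induction_left (p := fun g _ => ∃ n, Dep n ω g) ⟨0, Or.inl rfl⟩
    (fun x hx y _ ⟨n, hn⟩ => ⟨n + 1, dep_mul n ω x y (h1 x (Or.inr hx) n) hn⟩)
    (fun x hx y _ ⟨n, hn⟩ => ⟨n + 1, dep_mul n ω _ y (h1 _ (Or.inr ?_) n) hn⟩) hg
  rcases hx with rfl | ⟨i, rfl⟩
  · exact Or.inl (inv_eq_of_mul_eq_one_right ga_sq)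
  · exact Or.inr ⟨i, inv_eq_of_mul_eq_one_right (gs_sq i ω)⟩

section
variable {G : Type} [Group G] {ρ : G →* Perm V2} (hρ : IsBranchAction k2 ρ)
include hρ

theorem gX_rec (i : Fin 3) (ω : ℕ → Fin 3) :
    gX i (shf ω) = 2 * gX i ω - ((if ω 0 = i then 1 else 0 : ℤ) : ℝ) := by
  have h := fm_sec hρ ![if ω 0 = i then 1 else ga, gs i (shf ω)]
  rw [← gs_rec] at h
  simp only [Matrix.cons_val_zero, Matrix.cons_val_one] at h
  rw [gX, gX, h]
  split_ifs
  · rw [fm_one hρ]; push_cast; ring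
  · rw [ga, fm_swap hρ]; push_cast; ring

theorem gT_half {t : ℝ} (h : t ∈ gT (shf ω)) : t / 2 ∈ gT ω := by
  obtain ⟨r, a, b, c, rfl⟩ := h
  rw [gX_rec hρ, gX_rec hρ, gX_rec hρ]
  generalize (if ω 0 = 0 then 1 else 0 : ℤ) = d0
  generalize (if ω 0 = 1 then 1 else 0 : ℤ) = d1
  generalize (if ω 0 = 2 then 1 else 0 : ℤ) = d2
  exact ⟨(r - a * d0 - b * d1 - c * d2) / 2, a, b, c, by push_cast; ring⟩

theorem dep_gT (n : ℕ) : ∀ (ω : ℕ → Fin 3) (g : Perm V2), Dep n ω g →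
    fm g (Cone (vnil k2)) ∈ gT ω := by
  induction n with
  | zero =>
    rintro ω g (rfl | rfl | ⟨i, rfl⟩)
    · exact ⟨1, 0, 0, 0, by simp [fm_one hρ]⟩
    · rw [ga, fm_swap hρ]; exact zero_mem _
    · fin_cases i
      · exact ⟨0, 1, 0, 0, by simp [gX]⟩
      · exact ⟨0, 0, 1, 0, by simp [gX]⟩
      · exact ⟨0, 0, 0, 1, by simp [gX]⟩
  | succ n ih =>
    rintro ω g ⟨τ, f, rfl, h⟩
    rcases perm_two τ with rfl | rfl
    · rw [fm_sec hρ]
      exact add_mem (gT_half hρ (ih _ _ (h 0))) (gT_half hρ (ih _ _ (h 1)))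
    · rw [fm_swap hρ]; exact zero_mem _

theorem all_gT (n : ℕ) : ∀ (ω : ℕ → Fin 3), ∀ g ∈ griGroup ω, ∀ u : V2, u.1.length = n →
    fm g (Cone u) ∈ gT ω := by
  induction n with
  | zero =>
    intro ω g hg u hu
    obtain ⟨m, hm⟩ := mem_dep hg
    rw [show u = vnil k2 from Subtype.ext (List.length_eq_zero_iff.mp hu)]
    exact dep_gT hρ m ω g hm
  | succ n ih =>
    intro ω g hg u hu
    rcases bcases u with rfl | ⟨x, u, rfl⟩
    · simp at hu
    obtain ⟨τ, f, rfl, hf⟩ := exists_bw hg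
    by_cases h : τ x = x
    · rw [fm_bw_fix hρ f h]
      exact gT_half hρ (ih _ _ (hf x) u (by simpa using hu))
    · rw [fm_bw_move f h]; exact zero_mem _

theorem gX_ne_one {η : ℕ → Fin 3} (h : NEC η) (i : Fin 3) : gX i η ≠ 1 := by
  have key : ∀ (n : ℕ) (η : ℕ → Fin 3), gX i η = 1 → η n = i := by
    have h0 : ∀ η : ℕ → Fin 3, gX i η = 1 → η 0 = i ∧ gX i (shf η) = 1 := by
      intro η h1
      have h2 := gX_rec hρ i η
      have h3 : gX i (shf η) ≤ 1 := fm_le_one _ _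
      by_cases h4 : η 0 = i
      · refine ⟨h4, ?_⟩
        rw [h2, h1, if_pos h4]; norm_num
      · rw [h1, if_neg h4] at h2
        norm_num at h2
        linarith
    intro n
    induction n with
    | zero => exact fun η h1 => (h0 η h1).1
    | succ n ih => exact fun η h1 => ih (shf η) (h0 η h1).2
  intro h1
  obtain ⟨n, -, hn⟩ := h i 0
  exact hn (key n η h1)

theorem gX_inj (n : ℕ) : ∀ η η' : ℕ → Fin 3, NEC η' → (∀ i, gX i η = gX i η') → η n = η' n := by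
  have h0 : ∀ η η' : ℕ → Fin 3, NEC η' → (∀ i, gX i η = gX i η') → η 0 = η' 0 := by
    intro η η' h' he
    by_contra hne
    have h1 := gX_rec hρ (η 0) η
    have h2 := gX_rec hρ (η 0) η'
    rw [if_pos rfl] at h1
    rw [if_neg (Ne.symm hne), ← he] at h2
    have h3 : 0 ≤ gX (η 0) (shf η) := fm_nonneg _ _
    have h4 : gX (η 0) (shf η') ≤ 1 := fm_le_one _ _
    refine gX_ne_one hρ h'.shf (η 0) ?_
    push_cast at h1 h2
    linarith
  induction n with
  | zero => exact h0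
  | succ n ih =>
    intro η η' h' he
    refine ih (shf η) (shf η') h'.shf fun i => ?_
    rw [gX_rec hρ, gX_rec hρ, he, h0 η η' h' he]

end

theorem rat_of_scale {X : Fin 3 → ℝ} {l : ℚ} (h0 : 0 < l) (h1 : l < 1)
    (h : ∀ i, ∃ (r : ℚ) (a b c : ℤ), l * X i = r + a * X 0 + b * X 1 + c * X 2) (i : Fin 3) :
    ∃ r : ℚ, X i = r := by
  let W : Submodule ℚ ℝ := Submodule.span ℚ {1}
  let Λ : Submodule ℤ (ℝ ⧸ W) := Submodule.span ℤ (Set.range fun i => W.mkQ (X i))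
  have hm : ∀ j, W.mkQ (X j) ∈ Λ := fun j => Submodule.subset_span ⟨j, rfl⟩
  have hΛ : Λ = ⊥ := by
    by_contra hne
    have hint : IsIntegral ℤ l := by
      refine isIntegral_of_smul_mem_submodule Λ hne
        (Submodule.fg_span (Set.finite_range _)) l fun n hn => ?_
      induction hn using Submodule.span_induction with
      | mem x hx =>
        obtain ⟨j, rfl⟩ := hx
        obtain ⟨r, a, b, c, e⟩ := h j
        have e1 : l • X j = r • (1 : ℝ) + a • X 0 + b • X 1 + c • X 2 := by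
          simpa [Rat.smul_def] using e
        have e2 : W.mkQ (r • (1 : ℝ)) = 0 := (Submodule.Quotient.mk_eq_zero W).mpr
          (W.smul_mem r (Submodule.subset_span rfl))
        show l • W.mkQ (X j) ∈ Λ
        rw [← map_smul, e1, map_add, map_add, map_add, e2, zero_add, map_zsmul, map_zsmul,
          map_zsmul]
        exact add_mem (add_mem (Λ.smul_mem _ (hm 0)) (Λ.smul_mem _ (hm 1))) (Λ.smul_mem _ (hm 2))
      | zero => rw [smul_zero]; exact zero_mem _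
      | add x y _ _ hx hy => rw [smul_add]; exact add_mem hx hy
      | smul a x _ hx => rw [smul_comm]; exact Λ.smul_mem a hx
    obtain ⟨z, hz⟩ := IsIntegrallyClosed.isIntegral_iff.mp hint
    have hz' : (z : ℚ) = l := hz
    rw [← hz'] at h0 h1
    have a0 : 0 < z := by exact_mod_cast h0
    have a1 : z < 1 := by exact_mod_cast h1
    omega
  have h2 := hm i
  rw [hΛ, Submodule.mem_bot] at h2
  obtain ⟨r, hr⟩ := Submodule.mem_span_singleton.mp ((Submodule.Quotient.mk_eq_zero W).mp h2)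
  exact ⟨r, by rw [← hr, Rat.smul_def, mul_one]⟩

theorem shf_iter (n : ℕ) : ∀ (ω : ℕ → Fin 3) (i : ℕ), shf^[n] ω i = ω (i + n) := by
  induction n with
  | zero => exact fun _ _ => rfl
  | succ n ih => exact fun ω i => ih (shf ω) i

theorem nec_iter (n : ℕ) : ∀ {ω : ℕ → Fin 3}, NEC ω → NEC (shf^[n] ω) := by
  induction n with
  | zero => exact fun h => h
  | succ n ih => exact fun h => ih h.shf

theorem exists_shift_eq (h : NEC ω) (hr : ∀ i, ∃ r : ℚ, gX i ω = r) :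
    ∃ m n, m ≠ n ∧ shf^[m] ω = shf^[n] ω := by
  have hρ := gri_branch h
  choose r hr using hr
  let F : Fin 3 → Set ℝ := fun i => (fun z : ℤ => (z : ℝ) / (r i).den) '' Set.Icc 0 ((r i).den : ℤ)
  have hz : ∀ i n, ∃ z : ℤ, gX i (shf^[n] ω) * (r i).den = z := by
    intro i n
    induction n with
    | zero =>
      refine ⟨(r i).num, ?_⟩
      show gX i ω * _ = _
      rw [hr]
      exact_mod_cast Rat.mul_den_eq_num (r i)
    | succ n ih =>
      obtain ⟨z, hz⟩ := ih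
      rw [Function.iterate_succ_apply', gX_rec hρ]
      generalize (if shf^[n] ω 0 = i then 1 else 0 : ℤ) = d
      refine ⟨2 * z - d * (r i).den, ?_⟩
      push_cast
      rw [← hz]
      ring
  have hF : Set.MapsTo (fun n i => gX i (shf^[n] ω)) Set.univ (Set.univ.pi F) := by
    intro n _ i _
    obtain ⟨z, hz⟩ := hz i n
    have p0 : (0 : ℝ) < (r i).den := by exact_mod_cast (r i).den_pos
    have h1 : 0 ≤ gX i (shf^[n] ω) := fm_nonneg _ _
    have h2 : gX i (shf^[n] ω) ≤ 1 := fm_le_one _ _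
    refine ⟨z, ⟨?_, ?_⟩, ?_⟩
    · have : (0 : ℝ) ≤ z := by rw [← hz]; positivity
      exact_mod_cast this
    · have : (z : ℝ) ≤ (r i).den := by rw [← hz]; nlinarith
      exact_mod_cast this
    · show (z : ℝ) / _ = gX i (shf^[n] ω)
      rw [← hz, mul_div_cancel_right₀ _ p0.ne']
  obtain ⟨m, -, n, -, hmn, e⟩ := Set.infinite_univ.exists_ne_map_eq_of_mapsTo hF
    (Set.Finite.pi fun i => (Set.finite_Icc _ _).image _)
  exact ⟨m, n, hmn, funext fun j => gX_inj hρ j _ _ (nec_iter n h) fun i => congrFun e i⟩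

theorem gri_minimal_iff (h : NEC ω) :
    IsMinimalGroup (griGroup ω) ↔ ∃ p > 0, ∃ N, ∀ n ≥ N, ω (n + p) = ω n := by
  have hρ := gri_branch h
  constructor
  · intro hmin
    obtain ⟨l, h0, h1, hl⟩ := fix_scale hρ (gri_ji h) hmin
    have h2 := hl (gT ω) fun g u => all_gT hρ _ ω g.1 g.2 u rfl
    obtain ⟨m, n, hmn, e⟩ := exists_shift_eq h
      (rat_of_scale (X := fun i => gX i ω) h0 h1 fun i => h2 (eS i ω) (vnil k2))
    have key : ∀ m n, m < n → shf^[m] ω = shf^[n] ω →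
        ∃ p > 0, ∃ N, ∀ n ≥ N, ω (n + p) = ω n := by
      intro m n hlt e
      refine ⟨n - m, by omega, m, fun i hi => ?_⟩
      have := congrFun e (i - m)
      rw [shf_iter, shf_iter, Nat.sub_add_cancel hi] at this
      rw [show i + (n - m) = i - m + n by omega, ← this]
    rcases lt_or_gt_of_ne hmn with h3 | h3
    · exact key m n h3 e
    · exact key n m h3 e.symm
  · rintro ⟨p, hp, N, hN⟩
    have hc : IsMinimalGroup (griGroup ω) ↔ ∃ u v : V2, u.1.length ≠ v.1.length ∧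
        AbsComm (rist (griGroup ω).subtype u) (rist (griGroup ω).subtype v) :=
      (criterion_types hρ (gri_ji h)).out 0 4
    refine hc.mpr ⟨(v0 hρ.1 N).1, (v0 hρ.1 (N + p)).1, ?_, absComm_iff.mpr ?_⟩
    · rw [(v0 hρ.1 N).2, (v0 hρ.1 (N + p)).2]; omega
    · have e : shf^[N + p] ω = shf^[N] ω := funext fun i => by
        rw [shf_iter, shf_iter, ← add_assoc, hN _ (Nat.le_add_left _ _)]
      have h1 := gri_ve_rist (N + p) ω h _ (v0 hρ.1 (N + p)).2
      rw [e] at h1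
      exact (gri_ve_rist N ω h _ (v0 hρ.1 N).2).trans h1.symm

end Pool.Agent.Lib.MP_53c676_al
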