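import Pool.Agent.Lib.MP_53c676_al.SX.GriDefs
import Pool.Agent.Lib.MP_53c676_al.AltMain

/-!
The wreath recursion for the Grigorchuk groups.
-/

namespace Pool.Agent.Lib.MP_53c676_al

open Equiv Subgroup
open scoped commutatorElement

/-- The binary branching sequence. -/
abbrev k2 : ℕ → ℕ := fun _ => 2

/-- Vertices of the binary tree. -/
abbrev V2 : Type := Vertex k2

/-- The shift. -/
abbrev shf (ω : ℕ → Fin 3) : ℕ → Fin 3 := fun n => ω (n + 1)

/-- Prepending a letter. -/
def bc (x : Fin 2) (w : V2) : V2 := vcons (k := k2) x w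

/-- The automorphism with given root permutation and sections. -/
noncomputable def bw (τ : Perm (Fin 2)) (f : Fin 2 → Perm V2) : Perm V2 := wr (k := k2) τ f

@[simp] theorem bc_val (x : Fin 2) (w : V2) : (bc x w).1 = x.1 :: w.1 := rfl

theorem bcases (v : V2) : v = vnil k2 ∨ ∃ x w, v = bc x w := vcases v

theorem bc_inj {x y : Fin 2} {v w : V2} : bc x v = bc y w ↔ x = y ∧ v = w :=
  vcons_inj (k := k2)

@[simp] theorem bw_nil (τ : Perm (Fin 2)) (f : Fin 2 → Perm V2) :
    bw τ f (vnil k2) = vnil k2 := wr_nil (k := k2) τ f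

@[simp] theorem bw_bc (τ : Perm (Fin 2)) (f : Fin 2 → Perm V2) (x : Fin 2) (w : V2) :
    bw τ f (bc x w) = bc (τ x) (f x w) := wr_cons (k := k2) τ f x w

theorem bext {g h : Perm V2} (h0 : g (vnil k2) = h (vnil k2))
    (h1 : ∀ x w, g (bc x w) = h (bc x w)) : g = h := vext (k := k2) h0 h1

theorem bw_mul (τ τ' : Perm (Fin 2)) (f f' : Fin 2 → Perm V2) :
    bw τ f * bw τ' f' = bw (τ * τ') fun x => f (τ' x) * f' x := wr_mul (k := k2) τ τ' f f'

theorem bw_one : bw 1 1 = 1 := wr_one (k := k2)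

theorem bw_inj {τ τ' : Perm (Fin 2)} {f f' : Fin 2 → Perm V2} (h : bw τ f = bw τ' f') :
    τ = τ' ∧ f = f' := wr_inj (k := k2) h

theorem bw_inv (τ : Perm (Fin 2)) (f : Fin 2 → Perm V2) :
    (bw τ f)⁻¹ = bw τ⁻¹ fun x => (f (τ⁻¹ x))⁻¹ := by
  rw [inv_eq_iff_mul_eq_one, bw_mul, mul_inv_cancel, ← bw_one]
  congr 1
  funext x
  simp

theorem perm_two (τ : Perm (Fin 2)) : τ = 1 ∨ τ = swap 0 1 := by
  revert τ; decide

/-- Automorphisms fixing the first level. -/
noncomputable def bsec : (Fin 2 → Perm V2) →* Perm V2 := secHom k2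

theorem bsec_apply (f : Fin 2 → Perm V2) : bsec f = bw 1 f := rfl

/-- The copy of an automorphism below a vertex of the first level. -/
noncomputable def emb (x : Fin 2) : Perm V2 →* Perm V2 :=
  bsec.comp (MonoidHom.mulSingle (fun _ : Fin 2 => Perm V2) x)

theorem emb_apply (x : Fin 2) (h : Perm V2) : emb x h = bw 1 (Pi.mulSingle x h) := rfl

theorem emb_inj (x : Fin 2) : Function.Injective (emb x) := fun g h e => by
  have := congrFun (bw_inj e).2 x
  simpa using this

/-- The generator `a`. -/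
noncomputable def ga : Perm V2 := bw (swap 0 1) 1

theorem ga_sq : ga * ga = 1 := by
  rw [ga, bw_mul, swap_mul_self, ← bw_one]
  rfl

theorem ga_val (v : V2) : (ga v).1 = griA v.1 := by
  rcases bcases v with rfl | ⟨x, w, rfl⟩
  · simp [ga, griA]
  · fin_cases x <;> simp [ga, griA]

theorem conj_ga (f : Fin 2 → Perm V2) : ga * bw 1 f * ga = bw 1 fun x => f (swap 0 1 x) := by
  refine bext (by simp [ga]) fun x w => ?_
  simp [ga]

theorem memV (v : V2) : ∀ x ∈ v.1, x < 2 := fun x hx => by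
  obtain ⟨i, hi, rfl⟩ := List.getElem_of_mem hx
  exact v.2 i hi

theorem griA_lt {w : List ℕ} (h : ∀ x ∈ w, x < 2) : ∀ x ∈ griA w, x < 2 := by
  cases w with
  | nil => simp [griA]
  | cons y w =>
    intro x hx
    rcases List.mem_cons.mp hx with rfl | hx
    · omega
    · exact h x (List.mem_cons_of_mem _ hx)

theorem griA_A {w : List ℕ} (h : ∀ x ∈ w, x < 2) : griA (griA w) = w := by
  cases w with
  | nil => rfl
  | cons y w =>
    have := h y List.mem_cons_self
    simp only [griA]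
    congr 1
    omega

theorem griS_lt (i : Fin 3) (w : List ℕ) : ∀ ω, (∀ x ∈ w, x < 2) → ∀ x ∈ griS i ω w, x < 2 := by
  induction w with
  | nil => simp [griS]
  | cons y w ih =>
    intro ω h x hx
    have h' : ∀ x ∈ w, x < 2 := fun x hx => h x (List.mem_cons_of_mem _ hx)
    simp only [griS] at hx
    rcases List.mem_cons.mp hx with rfl | hx
    · exact h _ List.mem_cons_self
    · split_ifs at hx
      · exact h' x hx
      · exact griA_lt h' x hx
      · exact ih _ h' x hx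

theorem griS_S (i : Fin 3) (w : List ℕ) :
    ∀ ω, (∀ x ∈ w, x < 2) → griS i ω (griS i ω w) = w := by
  induction w with
  | nil => simp [griS]
  | cons y w ih =>
    intro ω h
    have h' : ∀ x ∈ w, x < 2 := fun x hx => h x (List.mem_cons_of_mem _ hx)
    simp only [griS]
    split_ifs
    · rfl
    · rw [griA_A h']
    · rw [ih _ h']

theorem griS_mul {i j l : Fin 3} (hij : i ≠ j) (hil : i ≠ l) (hjl : j ≠ l) (w : List ℕ) :
    ∀ ω, (∀ x ∈ w, x < 2) → griS i ω (griS j ω w) = griS l ω w := by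
  induction w with
  | nil => simp [griS]
  | cons y w ih =>
    intro ω h
    have h' : ∀ x ∈ w, x < 2 := fun x hx => h x (List.mem_cons_of_mem _ hx)
    simp only [griS]
    by_cases hy : y = 0
    · have h3 : ω 0 = i ∨ ω 0 = j ∨ ω 0 = l := by omega
      rcases h3 with h3 | h3 | h3
      · simp [hy, h3, hij, hil]
      · simp [hy, h3, hij.symm, hjl]
      · simp [hy, h3, hil.symm, hjl.symm, griA_A h']
    · simp [hy, ih _ h']

/-- The directed generators. -/
def gs (i : Fin 3) (ω : ℕ → Fin 3) : Perm V2 :=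
  Function.Involutive.toPerm
    (fun v => ⟨griS i ω v.1, fun _ hj => griS_lt i v.1 ω (memV v) _ (List.getElem_mem hj)⟩)
    fun v => Subtype.ext (griS_S i v.1 ω (memV v))

theorem gs_val (i : Fin 3) (ω : ℕ → Fin 3) (v : V2) : (gs i ω v).1 = griS i ω v.1 := rfl

theorem gs_sq (i : Fin 3) (ω : ℕ → Fin 3) : gs i ω * gs i ω = 1 :=
  Equiv.ext fun v => Subtype.ext (griS_S i v.1 ω (memV v))

theorem gs_mul {i j l : Fin 3} (hij : i ≠ j) (hil : i ≠ l) (hjl : j ≠ l) (ω : ℕ → Fin 3) :
    gs i ω * gs j ω = gs l ω :=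
  Equiv.ext fun v => Subtype.ext (griS_mul hij hil hjl v.1 ω (memV v))

theorem gs_rec (i : Fin 3) (ω : ℕ → Fin 3) :
    gs i ω = bw 1 ![if ω 0 = i then 1 else ga, gs i (shf ω)] := by
  refine bext (by rw [bw_nil]; rfl) fun x w => Subtype.ext ?_
  rw [gs_val, bw_bc]
  fin_cases x
  · by_cases h : ω 0 = i <;> simp [griS, h, ga_val]
  · simp [griS, gs_val]

variable {ω : ℕ → Fin 3}

theorem griGroup_eq (ω : ℕ → Fin 3) :
    griGroup ω = closure {g | g = ga ∨ ∃ i, g = gs i ω} := by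
  unfold griGroup
  congr 1
  ext g
  refine or_congr ⟨fun h => Equiv.ext fun v => Subtype.ext ((h v).trans (ga_val v).symm),
    fun h v => by rw [h, ga_val]⟩ (exists_congr fun i => ?_)
  exact ⟨fun h => Equiv.ext fun v => Subtype.ext (h v), fun h v => by rw [h, gs_val]⟩

theorem ga_mem (ω : ℕ → Fin 3) : ga ∈ griGroup ω := by
  rw [griGroup_eq]; exact subset_closure (Or.inl rfl)

theorem gs_mem (i : Fin 3) (ω : ℕ → Fin 3) : gs i ω ∈ griGroup ω := by
  rw [griGroup_eq]; exact subset_closure (Or.inr ⟨i, rfl⟩)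

theorem exists_bw {g : Perm V2} (hg : g ∈ griGroup ω) :
    ∃ τ f, g = bw τ f ∧ ∀ x, f x ∈ griGroup (shf ω) := by
  rw [griGroup_eq] at hg
  induction hg using closure_induction with
  | mem g hg =>
    rcases hg with rfl | ⟨i, rfl⟩
    · exact ⟨_, _, rfl, fun _ => one_mem _⟩
    · refine ⟨_, _, gs_rec i ω, Fin.forall_fin_two.mpr ⟨?_, gs_mem i _⟩⟩
      show (if ω 0 = i then 1 else ga) ∈ _
      split_ifs
      · exact one_mem _
      · exact ga_mem _
  | one => exact ⟨1, 1, bw_one.symm, fun _ => one_mem _⟩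
  | mul g g' _ _ ih ih' =>
    obtain ⟨τ, f, rfl, h1⟩ := ih
    obtain ⟨τ', f', rfl, h1'⟩ := ih'
    exact ⟨_, _, bw_mul _ _ _ _, fun x => mul_mem (h1 _) (h1' _)⟩
  | inv g _ ih =>
    obtain ⟨τ, f, rfl, h1⟩ := ih
    exact ⟨_, _, bw_inv _ _, fun x => inv_mem (h1 _)⟩

theorem bw_sec_mem {τ : Perm (Fin 2)} {f : Fin 2 → Perm V2} (h : bw τ f ∈ griGroup ω)
    (x : Fin 2) : f x ∈ griGroup (shf ω) := by
  obtain ⟨τ', f', e, h1⟩ := exists_bw h
  rw [(bw_inj e).2]
  exact h1 x

theorem gri_nil {g : Perm V2} (hg : g ∈ griGroup ω) : g (vnil k2) = vnil k2 := by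
  obtain ⟨τ, f, rfl, -⟩ := exists_bw hg
  exact bw_nil _ _

theorem gri_child (n : ℕ) : ∀ (ω : ℕ → Fin 3), ∀ g ∈ griGroup ω, ∀ u v : V2, u.1.length = n →
    (IsChild (g u) (g v) ↔ IsChild u v) := by
  induction n with
  | zero =>
    intro ω g hg u v hu
    obtain ⟨τ, f, rfl, hf⟩ := exists_bw hg
    rcases bcases u with rfl | ⟨x, u, rfl⟩
    · rcases bcases v with rfl | ⟨y, v, rfl⟩
      · rw [bw_nil]
      · rw [bw_nil, bw_bc]
        refine (isChild_nil_cons (k := k2) _ _).trans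
          (Iff.trans ?_ (isChild_nil_cons (k := k2) _ _).symm)
        conv_lhs => rw [← gri_nil (hf y)]
        exact (f y).injective.eq_iff
    · simp at hu
  | succ n ih =>
    intro ω g hg u v hu
    obtain ⟨τ, f, rfl, hf⟩ := exists_bw hg
    rcases bcases u with rfl | ⟨x, u, rfl⟩
    · simp at hu
    · rcases bcases v with rfl | ⟨y, v, rfl⟩
      · rw [bw_nil]
        exact iff_of_false (not_isChild_nil _) (not_isChild_nil _)
      · rw [bw_bc, bw_bc]
        refine (isChild_cons_cons (k := k2) _ _ _ _).trans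
          (Iff.trans ?_ (isChild_cons_cons (k := k2) _ _ _ _).symm)
        rw [τ.injective.eq_iff]
        refine and_congr_right ?_
        rintro rfl
        exact ih _ (f x) (hf x) u v (by simpa using hu)

theorem swap_ne_two : ∀ x y : Fin 2, x ≠ y → swap (0 : Fin 2) 1 x = y := by decide

theorem exists_ne3 (j : Fin 3) : ∃ i, j ≠ i := by revert j; decide

theorem gri_rep (x : Fin 2) {h : Perm V2} (hh : h ∈ griGroup (shf ω)) :
    ∃ f, bw 1 f ∈ griGroup ω ∧ f x = h := by
  have h1 : ∃ f, bw 1 f ∈ griGroup ω ∧ f 1 = h := by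
    rw [griGroup_eq] at hh
    induction hh using closure_induction with
    | mem g hg =>
      rcases hg with rfl | ⟨i, rfl⟩
      · obtain ⟨i, hi⟩ := exists_ne3 (ω 0)
        have h2 := mul_mem (mul_mem (ga_mem ω) (gs_mem i ω)) (ga_mem ω)
        rw [gs_rec, conj_ga] at h2
        exact ⟨_, h2, by simp [hi]⟩
      · exact ⟨_, gs_rec i ω ▸ gs_mem i ω, rfl⟩
    | one => exact ⟨1, bw_one.symm ▸ one_mem _, rfl⟩
    | mul g g' _ _ ih ih' =>
      obtain ⟨f, h1, rfl⟩ := ih
      obtain ⟨f', h1', rfl⟩ := ih'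
      refine ⟨f * f', ?_, rfl⟩
      rw [← bsec_apply, map_mul]
      exact mul_mem h1 h1'
    | inv g _ ih =>
      obtain ⟨f, h1, rfl⟩ := ih
      refine ⟨f⁻¹, ?_, rfl⟩
      rw [← bsec_apply, map_inv]
      exact inv_mem h1
  obtain ⟨f, h1, h2⟩ := h1
  fin_cases x
  · have h3 := mul_mem (mul_mem (ga_mem ω) h1) (ga_mem ω)
    rw [conj_ga] at h3
    exact ⟨_, h3, by simpa using h2⟩
  · exact ⟨f, h1, h2⟩

theorem gri_trans (n : ℕ) : ∀ (ω : ℕ → Fin 3) (u v : V2), u.1.length = n → v.1.length = n →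
    ∃ g ∈ griGroup ω, g u = v := by
  induction n with
  | zero =>
    intro ω u v hu hv
    exact ⟨1, one_mem _, Subtype.ext ((List.length_eq_zero_iff.1 hu).trans
      (List.length_eq_zero_iff.1 hv).symm)⟩
  | succ n ih =>
    intro ω u v hu hv
    rcases bcases u with rfl | ⟨x, u, rfl⟩
    · simp at hu
    rcases bcases v with rfl | ⟨y, v, rfl⟩
    · simp at hv
    obtain ⟨h, hh, e⟩ := ih (shf ω) u v (by simpa using hu) (by simpa using hv)
    obtain ⟨f, h1, rfl⟩ := gri_rep x hh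
    by_cases hxy : x = y
    · subst hxy
      exact ⟨_, h1, by simp [e]⟩
    · refine ⟨_, mul_mem (ga_mem ω) h1, ?_⟩
      have : swap (0 : Fin 2) 1 x = y := swap_ne_two x y hxy
      simp [ga, e, this]

theorem fin_order (r : ℕ) : ∀ (η : ℕ → Fin 3) (i : Fin 3), η r = i →
    IsOfFinOrder (ga * gs i η) := by
  have key : ∀ a b : Perm V2, IsOfFinOrder a → IsOfFinOrder b → IsOfFinOrder (bw 1 ![a, b]) := by
    intro a b ha hb
    have e : bw 1 ![a, b] = emb 0 a * emb 1 b := by
      rw [emb_apply, emb_apply, bw_mul, mul_one]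
      congr 1
      funext x
      fin_cases x <;> simp
    rw [e]
    refine Commute.isOfFinOrder_mul ?_ ((emb 0).isOfFinOrder ha) ((emb 1).isOfFinOrder hb)
    exact (Pi.mulSingle_commute (f := fun _ : Fin 2 => Perm V2) (by decide) a b).map bsec
  have sq : ∀ (η : ℕ → Fin 3) (i : Fin 3), (ga * gs i η) ^ 2 =
      bw 1 ![gs i (shf η) * (if η 0 = i then 1 else ga),
        (if η 0 = i then 1 else ga) * gs i (shf η)] := by
    intro η i
    rw [pow_two, ← mul_assoc, gs_rec, conj_ga, bw_mul, mul_one]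
    congr 1
    funext x
    fin_cases x <;> simp
  have h0 : ∀ (η : ℕ → Fin 3) (i : Fin 3), η 0 = i → IsOfFinOrder (ga * gs i η) := by
    intro η i h
    have h2 : IsOfFinOrder (gs i (shf η)) :=
      isOfFinOrder_iff_pow_eq_one.mpr ⟨2, two_pos, by rw [pow_two, gs_sq]⟩
    refine IsOfFinOrder.of_pow (n := 2) ?_ two_ne_zero
    rw [sq, if_pos h, mul_one, one_mul]
    exact key _ _ h2 h2
  induction r with
  | zero => exact h0
  | succ r ih =>
    intro η i h
    by_cases h1 : η 0 = i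
    · exact h0 η i h1
    · have h2 := ih (shf η) i h
      refine IsOfFinOrder.of_pow (n := 2) ?_ two_ne_zero
      rw [sq, if_neg h1]
      refine key _ _ ?_ h2
      have e : gs i (shf η) * ga = (ga * gs i (shf η))⁻¹ := by
        rw [mul_inv_rev, inv_eq_of_mul_eq_one_right (gs_sq _ _), inv_eq_of_mul_eq_one_right ga_sq]
      rw [e]
      exact h2.inv

end Pool.Agent.Lib.MP_53c676_al
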