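import Pool.Agent.Lib.MP_53c676_al.Main

/-!
Supports of rigid stabilizers under a virtual endomorphism given by a span `G ← C → G`.
-/

namespace Pool.Agent.Lib.MP_53c676_al

universe u

open Subgroup
open scoped commutatorElement

theorem sx_card_cover {X Y : Type} [Finite X] [Finite Y] (A : X → Prop) (S : Y → X → Prop)
    (huniq : ∀ y y' x, S y x → S y' x → y = y') (hA : ∀ x, A x ↔ ∃ y, S y x) (s : ℕ)
    (hs : ∀ y, Nat.card {x // S y x} = s) : Nat.card {x // A x} = Nat.card Y * s := by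
  have := Fintype.ofFinite Y
  have h1 : Nat.card (Σ y : Y, {x // S y x}) = Nat.card {x // A x} := by
    refine Nat.card_eq_of_bijective
      (fun z => (⟨z.2.1, (hA _).mpr ⟨z.1, z.2.2⟩⟩ : {x // A x})) ⟨?_, ?_⟩
    · rintro ⟨y, x, hx⟩ ⟨y', x', hx'⟩ h
      have h2 : x = x' := congrArg Subtype.val h
      subst h2
      obtain rfl := huniq y y' x hx hx'
      rfl
    · rintro ⟨x, hx⟩
      obtain ⟨y, hy⟩ := (hA x).mp hx
      exact ⟨⟨y, x, hy⟩, rfl⟩
  rw [← h1, Nat.card_sigma, Finset.sum_congr rfl fun y _ => hs y, Finset.sum_const,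
    Finset.card_univ, smul_eq_mul, Nat.card_eq_fintype_card]

section action
variable {k : ℕ → ℕ} {G : Type u} [Group G] {ρ : G →* Equiv.Perm (Vertex k)}

/-- Pointwise stabilizer of the level `n`. -/
def stL (ρ : G →* Equiv.Perm (Vertex k)) (n : ℕ) : Subgroup G where
  carrier := {g | ∀ v : Vertex k, v.1.length = n → ρ g v = v}
  one_mem' := by intro v _; simp
  mul_mem' := by
    intro a b ha hb v hv
    simp only [map_mul, Equiv.Perm.coe_mul, Function.comp_apply]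
    rw [hb v hv, ha v hv]
  inv_mem' := by
    intro a ha v hv
    rw [map_inv, Equiv.Perm.inv_eq_iff_eq]
    exact (ha v hv).symm

/-- The subtree at `x` is fixed by `p c` as soon as the subtree at `y` is fixed by `q c`. -/
def Sup (ρ : G →* Equiv.Perm (Vertex k)) {C : Type u} [Group C] (p q : C →* G)
    (y x : Vertex k) : Prop :=
  ∀ c, q c ∈ fixSub ρ y → p c ∈ fixSub ρ x

/-- The image under `p` of the elements whose `q`-image fixes the subtree at `y`. -/
def fx (ρ : G →* Equiv.Perm (Vertex k)) {C : Type u} [Group C] (p q : C →* G)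
    (y : Vertex k) : Subgroup G :=
  ((fixSub ρ y).comap q).map p

theorem sup_iff {C : Type u} [Group C] {p q : C →* G} {y x : Vertex k} :
    Sup ρ p q y x ↔ fx ρ p q y ≤ fixSub ρ x := by
  constructor
  · rintro h _ ⟨c, hc, rfl⟩
    exact h c hc
  · intro h c hc
    exact h ⟨c, hc, rfl⟩

theorem sup_mono {C : Type u} [Group C] {p q : C →* G} {z y x : Vertex k} (hzy : z.1 <+: y.1)
    (h : Sup ρ p q y x) : Sup ρ p q z x := fun c hc => h c (fixSub_mono hzy hc)

theorem sup_down {C : Type u} [Group C] {p q : C →* G} {y x x' : Vertex k} (hx : x.1 <+: x'.1)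
    (h : Sup ρ p q y x) : Sup ρ p q y x' := fun c hc => fixSub_mono hx (h c hc)

variable (hρ : IsBranchAction k ρ)
include hρ

theorem rist_le_stL (u : Vertex k) : rist ρ u ≤ stL ρ u.1.length := by
  intro g hg v hv
  by_cases h : u.1 <+: v.1
  · have h1 := rist_maps hg h
    exact (pre_eq_of_len (v := ρ g v) h1 (List.prefix_refl _)
      (by rw [act_len hρ, hv])).symm.trans (pre_eq_of_len h (List.prefix_refl _) hv.symm)
  · exact hg v h

theorem stL_fi (n : ℕ) : (stL ρ n).FiniteIndex := by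
  refine fi_le (hρ.2.2.2.2 n) (iSup_le fun u => ?_)
  have := rist_le_stL hρ u.1
  rwa [u.2] at this

theorem conj_mem_fixSub {u : Vertex k} {x : G} (g : G) (hx : x ∈ fixSub ρ u) :
    g * x * g⁻¹ ∈ fixSub ρ (ρ g u) := by
  intro v hv
  have h1 : u.1 <+: (ρ g⁻¹ v).1 := by
    have := act_pre hρ g⁻¹ hv
    simpa using this
  have h2 := hx _ h1
  simp only [map_mul, Equiv.Perm.coe_mul, Function.comp_apply]
  rw [h2]
  simp

theorem card_desc_eq {u u' : Vertex k} (h : u.1.length = u'.1.length) (n : ℕ) :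
    Nat.card {v : Lv k n // u.1 <+: v.1.1} = Nat.card {v : Lv k n // u'.1 <+: v.1.1} := by
  have key : ∀ {a b : Vertex k}, a.1.length = b.1.length →
      Nat.card {v : Lv k n // a.1 <+: v.1.1} ≤ Nat.card {v : Lv k n // b.1 <+: v.1.1} := by
    intro a b hab
    obtain ⟨g, hg⟩ := hρ.2.2.2.1 a b hab
    refine Nat.card_le_card_of_injective (fun v => (⟨⟨ρ g v.1.1, by rw [act_len hρ, v.1.2]⟩,
      by rw [← hg]; exact act_pre hρ g v.2⟩ : {v : Lv k n // b.1 <+: v.1.1})) ?_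
    intro v w hvw
    have h1 : ρ g v.1.1 = ρ g w.1.1 := congrArg (fun t => t.1.1) hvw
    exact Subtype.ext (Subtype.ext ((ρ g).injective h1))
  exact le_antisymm (key h) (key h.symm)

/-- The number of descendants on level `n` of a vertex of level `m`. -/
noncomputable def dc (m n : ℕ) : ℕ := Nat.card {v : Lv k n // (v0 hρ.1 m).1.1 <+: v.1.1}

theorem card_desc {m : ℕ} (u : Lv k m) (n : ℕ) :
    Nat.card {v : Lv k n // u.1.1 <+: v.1.1} = dc hρ m n :=
  card_desc_eq hρ (by rw [u.2, (v0 hρ.1 m).2]) n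

theorem card_lift {m n : ℕ} (A : Lv k m → Prop) (B : Lv k n → Prop)
    (h : ∀ x, B x ↔ ∃ u : {u // A u}, u.1.1.1 <+: x.1.1) :
    Nat.card {x // B x} = Nat.card {u // A u} * dc hρ m n := by
  refine sx_card_cover B (fun (u : {u // A u}) x => u.1.1.1 <+: x.1.1) ?_ h _
    fun u => card_desc hρ u.1 n
  intro u u' x h1 h2
  exact Subtype.ext (Subtype.ext (pre_eq_of_len h1 h2 (by rw [u.1.2, u'.1.2])))

theorem card_lv {m n : ℕ} (hmn : m ≤ n) :
    Nat.card (Lv k n) = Nat.card (Lv k m) * dc hρ m n := by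
  have h := card_lift hρ (m := m) (n := n) (fun _ => True) (fun _ => True) fun x =>
    ⟨fun _ => ⟨⟨⟨tk m x.1, tk_len m x.1 (by rw [x.2]; exact hmn)⟩, trivial⟩, tk_pre m x.1⟩,
      fun _ => trivial⟩
  rwa [Nat.card_congr (Equiv.subtypeUnivEquiv fun _ => trivial),
    Nat.card_congr (Equiv.subtypeUnivEquiv fun _ => trivial)] at h

theorem card_lv_pos (n : ℕ) : 0 < Nat.card (Lv k n) := by
  have := lv_nonempty hρ n
  exact Nat.card_pos

theorem card_lv_lt {m n : ℕ} (hmn : m < n) : Nat.card (Lv k m) < Nat.card (Lv k n) := by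
  have h2 : 1 < dc hρ m n := by
    let w := (v0 hρ.1 m).1
    have hw : w.1.length = m := (v0 hρ.1 m).2
    have hch : ∀ b : ℕ, b < 2 → ∃ v : Lv k n, w.1 ++ [b] <+: v.1.1 := by
      intro b hb
      obtain ⟨v, hv, hv'⟩ := exists_desc hρ.1 ⟨w.1 ++ [b], by
        intro i hi
        by_cases h1 : i < w.1.length
        · rw [List.getElem_append_left h1]; exact w.2 i h1
        · rw [List.getElem_append_right (by omega)]
          simp only [List.getElem_singleton]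
          exact lt_of_lt_of_le hb (hρ.1 i)⟩ (n := n) (by simp [hw]; omega)
      exact ⟨⟨v, hv⟩, hv'⟩
    obtain ⟨a, ha⟩ := hch 0 two_pos
    obtain ⟨b, hb⟩ := hch 1 one_lt_two
    rw [dc, Finite.one_lt_card_iff_nontrivial]
    refine ⟨⟨⟨a, (List.prefix_append _ _).trans ha⟩, ⟨b, (List.prefix_append _ _).trans hb⟩,
      fun h => ?_⟩⟩
    have h1 : a = b := congrArg Subtype.val h
    subst h1
    have h3 := (List.prefix_of_prefix_length_le ha hb (by simp)).eq_of_length (by simp)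
    simp at h3
  rw [card_lv hρ hmn.le]
  exact lt_mul_of_one_lt_right (card_lv_pos hρ m) h2

section span
variable {C : Type u} [Group C] {p q : C →* G}

theorem sup_act {y x : Vertex k} (c : C) (h : Sup ρ p q y x) :
    Sup ρ p q (ρ (q c) y) (ρ (p c) x) := by
  intro d hd
  have h1 := conj_mem_fixSub hρ (q c)⁻¹ hd
  have h2 : ρ (q c)⁻¹ (ρ (q c) y) = y := by simp
  rw [h2, inv_inv, ← map_inv, ← map_mul, ← map_mul] at h1
  have h3 := conj_mem_fixSub hρ (p c) (h _ h1)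
  have h4 : p c * p (c⁻¹ * d * c) * (p c)⁻¹ = p d := by
    simp only [map_mul, map_inv]; group
  rwa [h4] at h3

theorem card_sup_act {y : Vertex k} (c : C) (n : ℕ) :
    Nat.card {x : Lv k n // Sup ρ p q y x.1} =
      Nat.card {x : Lv k n // Sup ρ p q (ρ (q c) y) x.1} := by
  have key : ∀ (a : Vertex k) (d : C), Nat.card {x : Lv k n // Sup ρ p q a x.1} ≤
      Nat.card {x : Lv k n // Sup ρ p q (ρ (q d) a) x.1} := by
    intro a d
    refine Nat.card_le_card_of_injective (fun x => (⟨⟨ρ (p d) x.1.1,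
      by rw [act_len hρ, x.1.2]⟩, sup_act hρ d x.2⟩ :
        {x : Lv k n // Sup ρ p q (ρ (q d) a) x.1})) ?_
    intro v w hvw
    have h1 : ρ (p d) v.1.1 = ρ (p d) w.1.1 := congrArg (fun t => t.1.1) hvw
    exact Subtype.ext (Subtype.ext ((ρ (p d)).injective h1))
  refine le_antisymm (key y c) ?_
  have h := key (ρ (q c) y) c⁻¹
  have h2 : ρ (q c⁻¹) (ρ (q c) y) = y := by simp
  rwa [h2] at h

theorem sup_dich (hJ : IsJustInfinite G) (hp' : p.range.FiniteIndex) (m : ℕ) :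
    ∃ n₀ : ℕ, ∀ y x : Vertex k, y.1.length = m → n₀ ≤ x.1.length →
      Sup ρ p q y x ∨ (fx ρ p q y).relIndex (rist ρ x) ≠ 0 := by
  obtain ⟨n₀, hn₀⟩ := core hρ hJ (fi_map p (fi_comap q (stL_fi hρ m)) hp')
  refine ⟨n₀, fun y x hy hx => ?_⟩
  have hP : ∀ κ ∈ ((stL ρ m).comap q).map p, ∀ g ∈ fx ρ p q y, κ * g * κ⁻¹ ∈ fx ρ p q y := by
    rintro _ ⟨c, hc, rfl⟩ _ ⟨d, hd, rfl⟩
    refine ⟨c * d * c⁻¹, ?_, by simp⟩
    have h1 := conj_mem_fixSub hρ (q c) hd
    rw [hc y hy] at h1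
    show q (c * d * c⁻¹) ∈ fixSub ρ y
    simpa using h1
  rw [sup_iff]
  refine hn₀ _ _ hP hP ?_ x hx
  intro g hg κ hκ
  have := mul_mem hg (hP κ hκ _ (inv_mem hg))
  simpa [commutatorElement_def, mul_assoc] using this

theorem sup_ve (hp : Function.Injective p) (hp' : p.range.FiniteIndex)
    (hq' : q.range.FiniteIndex) {m n : ℕ} (y : Lv k m) (S : Lv k n → Prop)
    (h1 : ∀ x, S x → Sup ρ p q y.1 x.1)
    (h2 : ∀ x, ¬ S x → (fx ρ p q y.1).relIndex (rist ρ x.1) ≠ 0) :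
    VE ({x // S x} → RB hρ n) (RB hρ m) := by
  classical
  let ev : (Lv k m → RB hρ m) →* RB hρ m := Pi.evalMonoidHom (fun _ => RB hρ m) y
  have hev : Function.Surjective ev := fun a => ⟨fun _ => a, rfl⟩
  let p' : pb q (psi hρ m) →* G := p.comp (pb1 q (psi hρ m))
  have hp'' : p'.range.FiniteIndex :=
    fi_range_comp _ _ (by rw [pb1_range]; exact fi_comap _ (psi_fi hρ m)) hp'
  refine prod_lemma (pb1 (psi hρ n) p')
    (ev.comp ((pb2 q (psi hρ m)).comp (pb2 (psi hρ n) p')))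
    (pb1_inj _ _ (hp.comp (pb1_inj _ _ (psi_inj hρ m)))) ?_ ?_ S ?_ ?_
  · rw [pb1_range]; exact fi_comap _ hp''
  · refine fi_range_comp _ _ (fi_range_comp _ _ ?_ ?_) (fi_range_of_surj _ hev)
    · rw [pb2_range]; exact fi_comap _ (psi_fi hρ n)
    · rw [pb2_range]; exact fi_comap _ hq'
  · intro c hc x hx
    apply psi_coord hρ _ x
    rw [pb_comm]
    apply h1 x hx
    rw [pb_comm]
    have h3 := psi_decomp hρ (pb2 q (psi hρ m) (pb2 (psi hρ n) p' c)) y
    have h4 : pb2 q (psi hρ m) (pb2 (psi hρ n) p' c) y = 1 := hc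
    rwa [h4, map_one, inv_one, one_mul] at h3
  · intro x hx
    refine fi_le (fi_inf (comap_phi_fi hρ x (h2 x hx)) (fi_comap (phi hρ x) hp'')) ?_
    rintro r ⟨⟨c, hc, hc'⟩, ⟨d, hd⟩⟩
    have h3 : pb1 q (psi hρ m) d = c := hp (hd.trans hc'.symm)
    refine ⟨⟨(Pi.mulSingle x r, d), mem_pb.mpr ?_⟩, ?_, rfl⟩
    · rw [psi_single]; exact hd.symm
    · show pb2 q (psi hρ m) d y = 1
      apply psi_coord hρ _ y
      rw [← pb_comm, h3]
      exact hc

theorem sup_disj [Infinite G] (hp' : p.range.FiniteIndex) (hq' : q.range.FiniteIndex) {m : ℕ}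
    {y y' : Lv k m} {x : Vertex k} (h : Sup ρ p q y.1 x) (h' : Sup ρ p q y'.1 x) : y = y' := by
  by_contra hne
  let ev : (Lv k m → RB hρ m) →* RB hρ m := Pi.evalMonoidHom (fun _ => RB hρ m) y
  have hU := fi_map p (fi_comap q (fi_map (psi hρ m)
    (fi_comap ev (fi_comap (phi hρ y) hq')) (psi_fi hρ m))) hp'
  refine not_le_fixSub hρ (relIndex_of_fi hU (rist ρ x)) ?_
  rintro _ ⟨c, ⟨b, ⟨d, hd⟩, hb⟩, rfl⟩
  have e1 : p d ∈ fixSub ρ x := by
    apply h'
    rw [hd]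
    exact rist_le_fixSub (by rw [y.2, y'.2]) (fun h0 => hne (Subtype.ext h0)) (phi_mem hρ y _)
  have e2 : p (d⁻¹ * c) ∈ fixSub ρ x := by
    apply h
    rw [map_mul, map_inv, hd, ← hb]
    exact psi_decomp hρ b y
  have e3 := mul_mem e1 e2
  simpa using e3

theorem sup_cover [Infinite G] (hp : Function.Injective p) {z x : Vertex k} {m : ℕ}
    (hz : z.1.length ≤ m)
    (hd : ∀ y : Vertex k, y.1.length = m →
      Sup ρ p q y x ∨ (fx ρ p q y).relIndex (rist ρ x) ≠ 0)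
    (h : Sup ρ p q z x) : ∃ y : {y : Lv k m // z.1 <+: y.1.1}, Sup ρ p q y.1.1 x := by
  by_contra hcon
  push Not at hcon
  have h1 := relIndex_iInf_ne_zero
    (f := fun y : {y : Lv k m // z.1 <+: y.1.1} => fx ρ p q y.1.1) (L := rist ρ x)
    fun y => (hd _ y.1.2).resolve_left (hcon y)
  refine not_le_fixSub hρ h1 fun g hg => ?_
  rw [mem_iInf] at hg
  obtain ⟨y₀, hy₀, hy₀'⟩ := exists_desc hρ.1 z hz
  obtain ⟨c, -, rfl⟩ := hg ⟨⟨y₀, hy₀⟩, hy₀'⟩
  apply h
  intro v hv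
  by_contra hmv
  obtain ⟨v', hv', hp2⟩ := exists_desc hρ.1 v (le_max_left v.1.length m)
  have hl : (tk m v').1.length = m := tk_len m v' (by rw [hv']; exact le_max_right _ _)
  obtain ⟨d, hd1, hd2⟩ := hg ⟨⟨tk m v', hl⟩,
    List.prefix_of_prefix_length_le (hv.trans hp2) (tk_pre m v') (by rw [hl]; exact hz)⟩
  obtain rfl := hp hd2
  exact moves_desc hρ hmv hp2 (hd1 v' (tk_pre m v'))

theorem sup_up [Infinite G] {y x x' : Vertex k} (hx : x.1 <+: x'.1)
    (hd : Sup ρ p q y x ∨ (fx ρ p q y).relIndex (rist ρ x) ≠ 0) (h : Sup ρ p q y x') :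
    Sup ρ p q y x := by
  refine hd.resolve_right fun h1 => ?_
  exact not_le_fixSub hρ (fun h0 => h1 (relIndex_eq_zero_of_le_right (rist_mono hx) h0))
    (sup_iff.mp h)

theorem not_sup [Infinite G] {y x w : Vertex k}
    (hw : ∀ g ∈ rist ρ w, ∃ c, q c = 1 ∧ p c = g) (hx : w.1 <+: x.1) : ¬ Sup ρ p q y x := by
  intro h
  obtain ⟨g, -, hg, hg1⟩ := exists_ne_one hρ (relIndex_of_fi (K := ⊤) fi_top (rist ρ x))
  obtain ⟨c, hc, rfl⟩ := hw g (rist_mono hx hg)
  exact hg1 (eq_one_of_mem hρ hg (h c (by rw [hc]; exact one_mem _)))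

end span

theorem ve_desc {m n : ℕ} (hmn : m ≤ n) : VE (Fin (dc hρ m n) → RB hρ n) (RB hρ m) := by
  have hid : (MonoidHom.id G).range.FiniteIndex := fi_range_of_surj _ fun a => ⟨a, rfl⟩
  refine (VE.of_card_eq (by simp [dc])).trans
    (sup_ve hρ (p := MonoidHom.id G) (q := MonoidHom.id G) (fun _ _ h => h) hid hid
      (v0 hρ.1 m) (fun x : Lv k n => (v0 hρ.1 m).1.1 <+: x.1.1)
      (fun x hx c hc => fixSub_mono hx hc) fun x hx => ?_)
  have hl : (tk m x.1).1.length = m := tk_len m x.1 (by rw [x.2]; exact hmn)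
  have h1 : rist ρ x.1 ≤ fx ρ (MonoidHom.id G) (MonoidHom.id G) (v0 hρ.1 m).1 := by
    intro g hg
    refine ⟨g, rist_le_fixSub (u := tk m x.1) (by rw [hl, (v0 hρ.1 m).2]) (fun h0 => hx ?_)
      (rist_mono (tk_pre m x.1) hg), rfl⟩
    rw [← h0]
    exact tk_pre m x.1
  rw [relIndex_eq_one.mpr h1]
  exact one_ne_zero

theorem exists_span (hJ : IsJustInfinite G) (h : IsMinimalGroup G) :
    ∃ (C : Type u) (_ : Group C) (p q : C →* G), Function.Injective p ∧ p.range.FiniteIndex ∧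
      q.range.FiniteIndex ∧ ∀ g ∈ rist ρ (v1 hρ.1).1, ∃ c, q c = 1 ∧ p c = g := by
  classical
  obtain ⟨C, _, p, q, hp, hp', hq'⟩ := rb_of_minimal hρ hJ h 1
  let ev : (Lv k 1 → RB hρ 1) →* RB hρ 1 := Pi.evalMonoidHom (fun _ => RB hρ 1) (v0 hρ.1 1)
  have hev : Function.Surjective ev := fun a => ⟨fun _ => a, rfl⟩
  refine ⟨pb ev p, inferInstance, (psi hρ 1).comp (pb1 ev p), q.comp (pb2 ev p),
    (psi_inj hρ 1).comp (pb1_inj _ _ hp),
    fi_range_comp _ _ (by rw [pb1_range]; exact fi_comap _ hp') (psi_fi hρ 1),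
    fi_range_comp _ _ (by rw [pb2_range]; exact fi_comap _ (fi_range_of_surj _ hev)) hq',
    fun g hg => ?_⟩
  rw [← phi_range hρ] at hg
  obtain ⟨r, hr⟩ := hg
  have h4 : (Pi.mulSingle (v1 hρ.1) r, (1 : C)) ∈ pb ev p := by
    rw [mem_pb, map_one]
    exact Pi.mulSingle_eq_of_ne (v1_ne hρ.1).symm _
  refine ⟨⟨_, h4⟩, map_one q, ?_⟩
  show psi hρ 1 (Pi.mulSingle (v1 hρ.1) r) = g
  rw [psi_single, hr]

end action

end Pool.Agent.Lib.MP_53c676_al
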